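import Pool.Agent.R859.PA.Basic

set_option autoImplicit false

/-! Diameters `0, 1, 2`. -/

open Finset

namespace Pool.Agent.R859.PA

variable {K : Type*} [Field K]

theorem small0 (θ θs vphi phi : ℕ → K) : IsParameterArray 0 θ θs vphi phi where
  pa1 := fun i j hi hj hij => absurd (by omega) hij
  pa2 := fun i h1 hi => by omega
  pa3 := fun i h1 hi => by omega
  pa4 := fun i h1 hi => by omega
  pa5 := fun i j h1 hi h2 hj => by omega

theorem iff1 (θ θs vphi phi : ℕ → K) : IsParameterArray 1 θ θs vphi phi ↔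
    θ 0 ≠ θ 1 ∧ θs 0 ≠ θs 1 ∧ vphi 1 ≠ 0 ∧ phi 1 ≠ 0 ∧
      vphi 1 = phi 1 + (θs 1 - θs 0) * (θ 0 - θ 1) := by
  constructor
  · intro p
    have h := p.pa1 0 1 (by omega) (by omega) (by omega)
    have h3 := p.pa3 1 le_rfl le_rfl
    rw [vt_one h.1] at h3
    refine ⟨h.1, h.2, (p.pa2 1 le_rfl le_rfl).1, (p.pa2 1 le_rfl le_rfl).2, ?_⟩
    rw [h3]; simp
  · rintro ⟨h1, h2, h3, h4, h5⟩
    have key : ∀ i, 1 ≤ i → i ≤ 1 → i = 1 := fun i a b => le_antisymm b a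
    refine ⟨?_, ?_, ?_, ?_, ?_⟩
    · intro i j hi hj hij
      have : (i = 0 ∧ j = 1) ∨ (i = 1 ∧ j = 0) := by omega
      rcases this with ⟨rfl, rfl⟩ | ⟨rfl, rfl⟩
      · exact ⟨h1, h2⟩
      · exact ⟨h1.symm, h2.symm⟩
    · intro i a b; rw [key i a b]; exact ⟨h3, h4⟩
    · intro i a b; rw [key i a b, vt_one h1, h5]; simp
    · intro i a b; rw [key i a b, vt_one h1, h5]; simp; ring
    · intro i j a b; omega

theorem small1 {θ θs vphi phi : ℕ → K} (p : IsParameterArray 1 θ θs vphi phi)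
    (θ' θs' vphi' phi' : ℕ → K) (hθs : ∀ i, i ≤ 1 → θs' i = θs i) :
    (IsParameterArray 1 θ' θs' vphi' phi' ∧
      (∀ i, 1 ≤ i → i ≤ 1 → vphi' i * phi' i = vphi i * phi i)) ↔
    ∃ r : K, r ≠ 0 ∧ r ^ 2 ≠ vphi 1 * phi 1 ∧ vphi' 1 = r ∧ phi' 1 = vphi 1 * phi 1 / r ∧
      θ' 1 = θ' 0 - (r - vphi 1 * phi 1 / r) / (θs 1 - θs 0) := by
  obtain ⟨a1, a2, a3, a4, a5⟩ := (iff1 _ _ _ _).1 p
  have hb : θs 1 - θs 0 ≠ 0 := sub_ne_zero.2 a2.symm
  have key : ∀ i, 1 ≤ i → i ≤ 1 → i = 1 := fun i a b => le_antisymm b a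
  rw [iff1, hθs 0 (by omega), hθs 1 le_rfl]
  constructor
  · rintro ⟨⟨b1, b2, b3, b4, b5⟩, hp⟩
    have h := hp 1 le_rfl le_rfl
    have hph : phi' 1 = vphi 1 * phi 1 / vphi' 1 := by rw [← h]; field_simp
    refine ⟨vphi' 1, b3, ?_, rfl, hph, ?_⟩
    · intro hr
      rw [← h] at hr
      have h6 : vphi' 1 = phi' 1 := by
        apply mul_left_cancel₀ b3
        linear_combination hr
      rw [← h6] at b5
      have : (θs 1 - θs 0) * (θ' 0 - θ' 1) = 0 := by linear_combination -b5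
      rcases mul_eq_zero.1 this with h7 | h7
      · exact hb h7
      · exact b1 (sub_eq_zero.1 h7)
    · rw [← hph]
      field_simp
      linear_combination b5
  · rintro ⟨r, hr0, hr, h1, h2, h3⟩
    have hπ : vphi 1 * phi 1 ≠ 0 := mul_ne_zero a3 a4
    have hne : r - vphi 1 * phi 1 / r ≠ 0 := by
      intro h
      apply hr
      field_simp at h
      linear_combination h
    refine ⟨⟨?_, a2, ?_, ?_, ?_⟩, ?_⟩
    · intro h
      rw [h3] at h
      have : (r - vphi 1 * phi 1 / r) / (θs 1 - θs 0) = 0 := by linear_combination h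
      exact div_ne_zero hne hb this
    · rw [h1]; exact hr0
    · rw [h2]; exact div_ne_zero hπ hr0
    · rw [h1, h2, h3]; field_simp; ring
    · intro i a b
      rw [key i a b, h1, h2]; field_simp

theorem vt2_two {θ : ℕ → K} (h : θ 0 ≠ θ 2) : vt 2 θ 2 = 1 := by
  rw [vt_succ 2 θ 1, vt_one h]; simp

theorem iff2 (θ θs vphi phi : ℕ → K) : IsParameterArray 2 θ θs vphi phi ↔
    (∀ i j, i ≤ 2 → j ≤ 2 → i ≠ j → θ i ≠ θ j ∧ θs i ≠ θs j) ∧
      vphi 1 ≠ 0 ∧ phi 1 ≠ 0 ∧ vphi 2 ≠ 0 ∧ phi 2 ≠ 0 ∧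
      vphi 1 = phi 1 + (θs 1 - θs 0) * (θ 0 - θ 2) ∧
      vphi 2 = phi 1 + (θs 2 - θs 0) * (θ 1 - θ 2) ∧
      phi 2 = vphi 1 + (θs 2 - θs 0) * (θ 1 - θ 0) := by
  constructor
  · intro p
    have h := p.pa1 0 2 (by omega) (by omega) (by omega)
    have h3 := p.pa3 1 le_rfl (by omega)
    have h4 := p.pa3 2 (by omega) le_rfl
    have h5 := p.pa4 2 (by omega) le_rfl
    rw [vt_one h.1] at h3
    rw [vt2_two h.1] at h4 h5
    refine ⟨p.pa1, (p.pa2 1 le_rfl (by omega)).1, (p.pa2 1 le_rfl (by omega)).2,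
      (p.pa2 2 (by omega) le_rfl).1, (p.pa2 2 (by omega) le_rfl).2, ?_, ?_, ?_⟩
    · rw [h3]; simp
    · rw [h4]; simp
    · rw [h5]; simp
  · rintro ⟨h1, h2, h3, h4, h5, h6, h7, h8⟩
    have h := h1 0 2 (by omega) (by omega) (by omega)
    have key : ∀ i, 1 ≤ i → i ≤ 2 → i = 1 ∨ i = 2 := fun i a b => by omega
    refine ⟨h1, ?_, ?_, ?_, ?_⟩
    · intro i a b
      rcases key i a b with rfl | rfl
      · exact ⟨h2, h3⟩
      · exact ⟨h4, h5⟩
    · intro i a b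
      rcases key i a b with rfl | rfl
      · rw [vt_one h.1, h6]; simp
      · rw [vt2_two h.1, h7]; simp
    · intro i a b
      rcases key i a b with rfl | rfl
      · rw [vt_one h.1, h6]; simp; ring
      · rw [vt2_two h.1, h8]; simp
    · intro i j a b; omega

theorem small2 {θ θs vphi phi : ℕ → K} (p : IsParameterArray 2 θ θs vphi phi)
    (θ' θs' vphi' phi' : ℕ → K) (hθs : ∀ i, i ≤ 2 → θs' i = θs i) :
    (IsParameterArray 2 θ' θs' vphi' phi' ∧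
      (∀ i, 1 ≤ i → i ≤ 2 → vphi' i * phi' i = vphi i * phi i)) ↔
    ((∀ i j, i ≤ 2 → j ≤ 2 → i ≠ j → θ' i ≠ θ' j) ∧
      ∃ r s : K, r ≠ 0 ∧ s ≠ 0 ∧
      (θs 1 - θs 0) * (s - vphi 2 * phi 2 / s) = (θs 2 - θs 1) * (r - vphi 1 * phi 1 / r) ∧
      vphi' 1 = r ∧ phi' 1 = vphi 1 * phi 1 / r ∧ vphi' 2 = s ∧ phi' 2 = vphi 2 * phi 2 / s ∧
      θ' 2 = θ' 0 - (r - vphi 1 * phi 1 / r) / (θs 1 - θs 0) ∧
      θ' 1 = θ' 2 + (s - vphi 1 * phi 1 / r) / (θs 2 - θs 0)) := by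
  obtain ⟨a1, a2, a3, a4, a5, a6, a7, a8⟩ := (iff2 _ _ _ _).1 p
  have hb : θs 1 - θs 0 ≠ 0 := sub_ne_zero.2 (a1 1 0 (by omega) (by omega) (by omega)).2
  have hb2 : θs 2 - θs 0 ≠ 0 := sub_ne_zero.2 (a1 2 0 (by omega) (by omega) (by omega)).2
  have key : ∀ i, 1 ≤ i → i ≤ 2 → i = 1 ∨ i = 2 := fun i a b => by omega
  rw [iff2, hθs 0 (by omega), hθs 1 (by omega), hθs 2 le_rfl]
  constructor
  · rintro ⟨⟨b1, b2, b3, b4, b5, b6, b7, b8⟩, hp⟩
    have h := hp 1 le_rfl (by omega)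
    have h' := hp 2 (by omega) le_rfl
    have hph : vphi 1 * phi 1 / vphi' 1 = phi' 1 := by rw [← h]; field_simp
    have hph' : vphi 2 * phi 2 / vphi' 2 = phi' 2 := by rw [← h']; field_simp
    refine ⟨fun i j hi hj hij => (b1 i j hi hj hij).1, vphi' 1, vphi' 2, b2, b4, ?_, rfl,
      hph.symm, rfl, hph'.symm, ?_, ?_⟩
    · rw [hph, hph']
      linear_combination (θs 1 - θs 0) * (b7 - b8) - (θs 2 - θs 0) * b6 + (θs 1 - θs 0) * b6 -
        (θs 1 - θs 0) * b6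
    · rw [hph]; field_simp; linear_combination b6
    · rw [hph]; field_simp; linear_combination -b7
  · rintro ⟨hd, r, s, hr, hs, hc, h1, h2, h3, h4, h5, h6⟩
    refine ⟨⟨?_, ?_, ?_, ?_, ?_, ?_, ?_, ?_⟩, ?_⟩
    · intro i j hi hj hij
      refine ⟨hd i j hi hj hij, ?_⟩
      rw [hθs i hi, hθs j hj]
      exact (a1 i j hi hj hij).2
    · rw [h1]; exact hr
    · rw [h2]; exact div_ne_zero (mul_ne_zero a2 a3) hr
    · rw [h3]; exact hs
    · rw [h4]; exact div_ne_zero (mul_ne_zero a4 a5) hs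
    · have k1 : (θs 1 - θs 0) * (θ' 0 - θ' 2) = r - vphi 1 * phi 1 / r := by
        rw [h5]; field_simp; ring
      rw [h1, h2]; linear_combination -k1
    · have k2 : (θs 2 - θs 0) * (θ' 1 - θ' 2) = s - vphi 1 * phi 1 / r := by
        rw [h6]; field_simp; ring
      rw [h3, h2]; linear_combination -k2
    · have k1 : (θs 1 - θs 0) * (θ' 0 - θ' 2) = r - vphi 1 * phi 1 / r := by
        rw [h5]; field_simp; ring
      have k2 : (θs 2 - θs 0) * (θ' 1 - θ' 2) = s - vphi 1 * phi 1 / r := by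
        rw [h6]; field_simp; ring
      rw [h4, h1]
      apply mul_left_cancel₀ hb
      linear_combination -hc - (θs 1 - θs 0) * k2 + (θs 2 - θs 0) * k1
    · intro i a b
      rcases key i a b with rfl | rfl
      · rw [h1, h2]; field_simp
      · rw [h3, h4]; field_simp

end Pool.Agent.R859.PA
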