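import Pool.Agent.R859.PA.Basic

set_option autoImplicit false

/-! Parameter arrays of the second type (`vt 2 = 0`). -/

open Finset

namespace Pool.Agent.R859.PA

variable {K : Type*} [Field K]

theorem ratio_of_rec {d : ℕ} {β g : K} {x : ℕ → K} (hx : Rec d β g x)
    (hdx : ∀ i j, i ≤ d → j ≤ d → i ≠ j → x i ≠ x j) (i : ℕ) (h2 : 2 ≤ i) (hi : i + 1 ≤ d) :
    (x (i - 2) - x (i + 1)) / (x (i - 1) - x i) = β + 1 := by
  have hne : x (i - 1) - x i ≠ 0 := sub_ne_zero.2 (hdx (i - 1) i (by omega) (by omega) (by omega))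
  rw [div_eq_iff hne]
  have a1 := hx (i - 1) (by omega)
  have a2 := hx (i - 2) (by omega)
  have e1 : i - 1 + 2 = i + 1 := by omega
  have e2 : i - 1 + 1 = i := by omega
  have e3 : i - 2 + 2 = i := by omega
  have e4 : i - 2 + 1 = i - 1 := by omega
  rw [e1, e2] at a1
  rw [e3, e4] at a2
  linear_combination a2 - a1

/-- Symmetry of the consecutive sums. -/
theorem claimII {d : ℕ} {β γ : K} {a : ℕ → K} (hs : Rec d β γ a)
    (hdist : ∀ i j, i ≤ d → j ≤ d → i ≠ j → a i ≠ a j)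
    (h0 : a 0 + a 1 = a (d - 1) + a d) (k : ℕ) :
    2 * k ≤ d → a k + a (k + 1) = a (d - k - 1) + a (d - k) := by
  induction k with
  | zero => intro _; simpa using h0
  | succ k ih =>
    intro hk
    have h1 := ih (by omega)
    have hx : Rec (d - 1) β γ a := hs.mono (by omega)
    have hy : Rec (d - 1) β γ (fun i => a (i + 1)) := by
      intro i hi
      have := hs (i + 1) (by omega)
      have e1 : i + 1 + 2 = i + 2 + 1 := by ring
      rw [e1] at this
      exact this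
    have hc := core hx hy (d - 2 - 2 * k) k (by omega)
    have e1 : k + (d - 2 - 2 * k) + 1 = d - k - 1 := by omega
    have e2 : k + (d - 2 - 2 * k) = d - k - 2 := by omega
    rw [e1, e2] at hc
    have e3 : d - k - 1 + 1 = d - k := by omega
    have e4 : d - k - 2 + 1 = d - k - 1 := by omega
    have e5 : k + 1 + 1 = k + 2 := by omega
    rw [e3, e5] at hc
    have hne : a (d - k - 1) - a k ≠ 0 :=
      sub_ne_zero.2 (hdist (d - k - 1) k (by omega) (by omega) (by omega))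
    have e6 : d - (k + 1) - 1 = d - k - 2 := by omega
    have e7 : d - (k + 1) = d - k - 1 := by omega
    rw [e5, e6, e7]
    apply mul_left_cancel₀ hne
    linear_combination -hc + (a (d - k - 2) - a (k + 1)) * h1

theorem typeII_shape {d : ℕ} (hd : 3 ≤ d) {β γ : K} {a : ℕ → K} (hs : Rec d β γ a)
    (hdist : ∀ i j, i ≤ d → j ≤ d → i ≠ j → a i ≠ a j) (hv2 : vt d a 2 = 0) :
    β = -2 ∧ ∃ m, d = 2 * m + 1 := by
  have h0d : a 0 - a d ≠ 0 := sub_ne_zero.2 (hdist 0 d (by omega) le_rfl (by omega))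
  have h0 : a 0 + a 1 = a (d - 1) + a d := by
    rw [vt_succ d a 1, vt_one (sub_ne_zero.1 h0d)] at hv2
    field_simp at hv2
    linear_combination hv2
  have hc := claimII hs hdist h0
  rcases Nat.even_or_odd' d with ⟨m, hm | hm⟩
  · exfalso
    have h1 := hc (m - 1) (by omega)
    have e1 : m - 1 + 1 = m := by omega
    have e2 : d - (m - 1) - 1 = m := by omega
    have e3 : d - (m - 1) = m + 1 := by omega
    rw [e1, e2, e3] at h1
    exact hdist (m - 1) (m + 1) (by omega) (by omega) (by omega) (by linear_combination h1)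
  · refine ⟨?_, m, hm⟩
    have h1 := hc (m - 1) (by omega)
    have e1 : m - 1 + 1 = m := by omega
    have e2 : d - (m - 1) - 1 = m + 1 := by omega
    have e3 : d - (m - 1) = m + 2 := by omega
    rw [e1, e2, e3] at h1
    have r1 := hs (m - 1) (by omega)
    have r2 := hs m (by omega)
    have e4 : m - 1 + 2 = m + 1 := by omega
    rw [e4, e1] at r1
    have hne : a m - a (m + 1) ≠ 0 := sub_ne_zero.2 (hdist m (m + 1) (by omega) (by omega) (by omega))
    apply mul_right_cancel₀ hne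
    linear_combination r2 - r1 + h1

theorem alt {d : ℕ} {γ : K} {x : ℕ → K} (hx : Rec d (-2) γ x) (j : ℕ) :
    (2 * j ≤ d → x (2 * j) = x 0 - j * (x 0 - x 2)) ∧
    (2 * j + 1 ≤ d → x (2 * j + 1) = x 1 + j * (x 0 - x 2)) := by
  induction j with
  | zero => exact ⟨fun _ => by simp, fun _ => by simp⟩
  | succ j ih =>
    have step : ∀ i, i + 3 ≤ d → x (i + 3) - x (i + 1) = -(x (i + 2) - x i) := by
      intro i hi
      have a1 := hx i (by omega)
      have a2 := hx (i + 1) (by omega)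
      have e1 : i + 1 + 2 = i + 3 := by ring
      have e2 : i + 1 + 1 = i + 2 := by ring
      rw [e1, e2] at a2
      linear_combination a2 - a1
    have st2 : ∀ n, 2 * n + 2 ≤ d → x (2 * n + 2) - x (2 * n) = x 2 - x 0 := by
      intro n
      induction n with
      | zero => intro _; simp
      | succ n ihn =>
        intro hn
        have b1 := ihn (by omega)
        have b2 := step (2 * n) (by omega)
        have b3 := step (2 * n + 1) (by omega)
        have e1 : 2 * (n + 1) + 2 = 2 * n + 4 := by ring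
        have e2 : 2 * (n + 1) = 2 * n + 2 := by ring
        have e3 : 2 * n + 1 + 3 = 2 * n + 4 := by ring
        have e4 : 2 * n + 1 + 1 = 2 * n + 2 := by ring
        have e5 : 2 * n + 1 + 2 = 2 * n + 3 := by ring
        rw [e3, e4, e5] at b3
        rw [e1, e2]
        linear_combination b3 - b2 + b1
    constructor
    · intro h
      have b1 := ih.1 (by omega)
      have b2 := st2 j (by omega)
      have e1 : 2 * (j + 1) = 2 * j + 2 := by ring
      rw [e1]
      push_cast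
      linear_combination b1 + b2
    · intro h
      have b1 := ih.2 (by omega)
      have b2 := st2 j (by omega)
      have b3 := step (2 * j) (by omega)
      have e1 : 2 * (j + 1) + 1 = 2 * j + 3 := by ring
      rw [e1]
      push_cast
      linear_combination b1 - b2 + b3

/-- The sequences of diameter `2 m + 1` are given by the formulas with parameters `δ, r, s, c`. -/
structure FormII (m : ℕ) (θs : ℕ → K) (δ r s c : K) (θ vphi phi : ℕ → K) : Prop where
  ev : ∀ j : ℕ, j ≤ m → θ (2 * j) = c - j * δ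
  od : ∀ j : ℕ, j ≤ m → θ (2 * j + 1) = c - (r - s) / (θs 1 - θs 0) - ((m : K) - j) * δ
  fe : ∀ j : ℕ, 1 ≤ j → j ≤ m → vphi (2 * j) = j * ((m : K) + 1 - j) * δ * (θs 0 - θs 2)
  pe : ∀ j : ℕ, 1 ≤ j → j ≤ m → phi (2 * j) = j * ((m : K) + 1 - j) * δ * (θs 0 - θs 2)
  fo : ∀ j : ℕ, j ≤ m → vphi (2 * j + 1) =
    r + j * (θs 0 - θs 2) * ((r - s) / (θs 1 - θs 0)) -
      j * ((θs 1 - θs 0) + j * (θs 0 - θs 2)) * δ
  po : ∀ j : ℕ, j ≤ m → phi (2 * j + 1) =
    s - j * (θs 0 - θs 2) * ((r - s) / (θs 1 - θs 0)) -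
      j * ((θs 1 - θs 0) + j * (θs 0 - θs 2)) * δ

theorem vt_II {d : ℕ} {γ : K} {a : ℕ → K} (hs : Rec d (-2) γ a) (h0 : a 0 ≠ a d)
    (hv2 : vt d a 2 = 0) (j : ℕ) :
    (2 * j ≤ d + 1 → vt d a (2 * j) = 0) ∧ (2 * j + 1 ≤ d + 1 → vt d a (2 * j + 1) = 1) := by
  have h := alt (vt_rec hs) j
  constructor
  · intro hj
    rw [h.1 hj, vt_zero, hv2]; ring
  · intro hj
    rw [h.2 hj, vt_zero, hv2, vt_one h0]; ring

theorem formII_of_array {m : ℕ} (hm : 1 ≤ m) {θ θs vphi phi : ℕ → K}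
    (p : IsParameterArray (2 * m + 1) θ θs vphi phi) (hv2 : vt (2 * m + 1) θs 2 = 0) :
    FormII m θs (θ 0 - θ 2) (vphi 1) (phi 1) (θ 0) θ vphi phi := by
  have hs := p.recS (by omega)
  have ht := p.recT (by omega)
  have hβ := (typeII_shape (by omega) hs (fun i j hi hj hij => (p.pa1 i j hi hj hij).2) hv2).1
  rw [hβ] at hs ht
  have h0 : θs 0 ≠ θs (2 * m + 1) := (p.pa1 0 (2 * m + 1) (by omega) le_rfl (by omega)).2
  have h0' : θ 0 ≠ θ (2 * m + 1) := (p.pa1 0 (2 * m + 1) (by omega) le_rfl (by omega)).1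
  have hvt : ∀ i, i ≤ 2 * m + 1 → vt (2 * m + 1) θ i = vt (2 * m + 1) θs i := fun i hi =>
    vt_eq (by omega) ht hs h0' h0 (by omega)
  have hb : θs 1 - θs 0 ≠ 0 := sub_ne_zero.2 (p.pa1 1 0 (by omega) (by omega) (by omega)).2
  have A := alt ht
  have As := alt hs
  have V := vt_II hs h0 hv2
  have h1 : vphi 1 = phi 1 + (θs 1 - θs 0) * (θ 0 - θ (2 * m + 1)) := by
    have := p.pa3 1 le_rfl (by omega)
    rw [vt_one h0'] at this
    rw [this]; simp
  have htau : (vphi 1 - phi 1) / (θs 1 - θs 0) = θ 0 - θ (2 * m + 1) := by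
    rw [h1]; field_simp; ring
  have htd := (A m).2 le_rfl
  refine ⟨?_, ?_, ?_, ?_, ?_, ?_⟩
  · intro j hj; exact (A j).1 (by omega)
  · intro j hj
    rw [htau, htd, (A j).2 (by omega)]; ring
  · intro j h1 hj
    rw [p.pa3 (2 * j) (by omega) (by omega), hvt _ (by omega), (V j).1 (by omega),
      (As j).1 (by omega), htd]
    have := (A (j - 1)).2 (by omega)
    have e1 : 2 * (j - 1) + 1 = 2 * j - 1 := by omega
    rw [e1] at this
    rw [this, Nat.cast_sub h1]
    push_cast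
    ring
  · intro j h1 hj
    rw [p.pa4 (2 * j) (by omega) (by omega), hvt _ (by omega), (V j).1 (by omega),
      (As j).1 (by omega)]
    have := (A (m - j + 1)).1 (by omega)
    have e1 : 2 * (m - j + 1) = 2 * m + 1 - 2 * j + 1 := by omega
    rw [e1] at this
    rw [this, Nat.cast_add, Nat.cast_sub hj]
    push_cast
    ring
  · intro j hj
    rw [htau, p.pa3 (2 * j + 1) (by omega) (by omega), hvt _ (by omega), (V j).2 (by omega),
      (As j).2 (by omega), Nat.add_sub_cancel, (A j).1 (by omega), h1, htd]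
    ring
  · intro j hj
    rw [htau, p.pa4 (2 * j + 1) (by omega) (by omega), hvt _ (by omega), (V j).2 (by omega),
      (As j).2 (by omega), h1, htd]
    have := (A (m - j)).2 (by omega)
    have e1 : 2 * (m - j) + 1 = 2 * m + 1 - (2 * j + 1) + 1 := by omega
    rw [e1] at this
    rw [this, Nat.cast_sub hj]
    ring

theorem array_of_formII {m : ℕ} (hm : 1 ≤ m) {θ θs vphi phi : ℕ → K} {γ : K}
    (hs : Rec (2 * m + 1) (-2) γ θs)
    (hdist : ∀ i j, i ≤ 2 * m + 1 → j ≤ 2 * m + 1 → i ≠ j → θs i ≠ θs j)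
    (hv2 : vt (2 * m + 1) θs 2 = 0)
    {δ r s c : K} (hF : FormII m θs δ r s c θ vphi phi)
    (hdist' : ∀ i j, i ≤ 2 * m + 1 → j ≤ 2 * m + 1 → i ≠ j → θ i ≠ θ j)
    (hnz : ∀ i, 1 ≤ i → i ≤ 2 * m + 1 → vphi i ≠ 0 ∧ phi i ≠ 0) :
    IsParameterArray (2 * m + 1) θ θs vphi phi := by
  have h0 : θs 0 ≠ θs (2 * m + 1) := hdist 0 (2 * m + 1) (by omega) le_rfl (by omega)
  have h0' : θ 0 ≠ θ (2 * m + 1) := hdist' 0 (2 * m + 1) (by omega) le_rfl (by omega)
  have hb : θs 1 - θs 0 ≠ 0 := sub_ne_zero.2 (hdist 1 0 (by omega) (by omega) (by omega))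
  obtain ⟨τ, hτ⟩ : ∃ τ, τ = (r - s) / (θs 1 - θs 0) := ⟨_, rfl⟩
  have hrs : r = s + (θs 1 - θs 0) * τ := by rw [hτ]; field_simp; ring
  have ev := hF.ev
  have od := hF.od
  have fo := hF.fo
  have po := hF.po
  rw [← hτ] at od fo po
  have ht : Rec (2 * m + 1) (-2) (4 * c - 2 * τ - (2 * m + 1) * δ) θ := by
    intro i hi
    rcases Nat.even_or_odd' i with ⟨j, hj | hj⟩
    · subst hj
      have e1 : 2 * j + 2 = 2 * (j + 1) := by ring
      rw [e1, ev (j + 1) (by omega), od j (by omega), ev j (by omega)]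
      push_cast; ring
    · subst hj
      have e1 : 2 * j + 1 + 2 = 2 * (j + 1) + 1 := by ring
      have e2 : 2 * j + 1 + 1 = 2 * (j + 1) := by ring
      rw [e1, e2, ev (j + 1) (by omega), od j (by omega), od (j + 1) (by omega)]
      push_cast; ring
  have hvt : ∀ i, i ≤ 2 * m + 1 → vt (2 * m + 1) θ i = vt (2 * m + 1) θs i := fun i hi =>
    vt_eq (by omega) ht hs h0' h0 (by omega)
  have As := alt hs
  have V := vt_II hs h0 hv2
  have hv1 : vphi 1 = r := by have := fo 0 (Nat.zero_le _); simpa using this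
  have hp1 : phi 1 = s := by have := po 0 (Nat.zero_le _); simpa using this
  have t0 : θ 0 = c := by have := ev 0 (Nat.zero_le _); simpa using this
  have td : θ (2 * m + 1) = c - τ := by rw [od m le_rfl]; ring
  refine ⟨fun i j hi hj hij => ⟨hdist' i j hi hj hij, hdist i j hi hj hij⟩, hnz, ?_, ?_, ?_⟩
  · intro i h1 hi
    rcases Nat.even_or_odd' i with ⟨j, hj | hj⟩
    · subst hj
      rw [hvt _ (by omega), (V j).1 (by omega), (As j).1 (by omega), td,
        hF.fe j (by omega) (by omega)]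
      have := od (j - 1) (by omega)
      have e1 : 2 * (j - 1) + 1 = 2 * j - 1 := by omega
      rw [e1] at this
      rw [this, Nat.cast_sub (by omega : 1 ≤ j)]
      push_cast
      ring
    · subst hj
      rw [hvt _ (by omega), (V j).2 (by omega), (As j).2 (by omega), td, Nat.add_sub_cancel,
        ev j (by omega), fo j (by omega), hp1, hrs]
      ring
  · intro i h1 hi
    rcases Nat.even_or_odd' i with ⟨j, hj | hj⟩
    · subst hj
      rw [hvt _ (by omega), (V j).1 (by omega), (As j).1 (by omega), t0,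
        hF.pe j (by omega) (by omega)]
      have := ev (m - j + 1) (by omega)
      have e1 : 2 * (m - j + 1) = 2 * m + 1 - 2 * j + 1 := by omega
      rw [e1] at this
      rw [this, Nat.cast_add, Nat.cast_sub (by omega : j ≤ m)]
      push_cast
      ring
    · subst hj
      rw [hvt _ (by omega), (V j).2 (by omega), (As j).2 (by omega), t0, po j (by omega), hv1, hrs]
      have := od (m - j) (by omega)
      have e1 : 2 * (m - j) + 1 = 2 * m + 1 - (2 * j + 1) + 1 := by omega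
      rw [e1] at this
      rw [this, Nat.cast_sub (by omega : j ≤ m)]
      ring
  · intro i j h1 hi h2 hj
    rw [ratio_of_rec ht hdist' i h1 hi, ratio_of_rec hs hdist j h2 hj]

/-- The four solutions `±(δ; r, s)` and `±(δ; s, r)`. -/
def TrivII (δ r s δ' r' s' : K) : Prop :=
  ∃ ε : K, (ε = 1 ∨ ε = -1) ∧ δ' = ε * δ ∧
    ((r' = ε * r ∧ s' = ε * s) ∨ (r' = ε * s ∧ s' = ε * r))

/-- The twisted solutions of the second type. -/
def TwistII (b δs δ r s δ' r' s' : K) : Prop :=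
  ∃ ε : K, (ε = 1 ∨ ε = -1) ∧ δ' = ε * δ ∧ r' * s' = r * s ∧
    ε * (r' + s') = -(r + s) - δ * b ^ 2 / δs

theorem typeII {m : ℕ} (hm : 1 ≤ m) {θ θs vphi phi : ℕ → K}
    (p : IsParameterArray (2 * m + 1) θ θs vphi phi) (hv2 : vt (2 * m + 1) θs 2 = 0)
    (θ' θs' vphi' phi' : ℕ → K) (hθs : ∀ i, i ≤ 2 * m + 1 → θs' i = θs i) :
    (IsParameterArray (2 * m + 1) θ' θs' vphi' phi' ∧
      (∀ i, 1 ≤ i → i ≤ 2 * m + 1 → vphi' i * phi' i = vphi i * phi i)) ↔
    ((∀ i j, i ≤ 2 * m + 1 → j ≤ 2 * m + 1 → i ≠ j → θ' i ≠ θ' j) ∧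
      ∃ δ' r' s' c' : K, FormII m θs δ' r' s' c' θ' vphi' phi' ∧
        (TrivII (θ 0 - θ 2) (vphi 1) (phi 1) δ' r' s' ∨
          TwistII (θs 1 - θs 0) (θs 0 - θs 2) (θ 0 - θ 2) (vphi 1) (phi 1) δ' r' s')) := by
  have hs := p.recS (by omega)
  have hdist : ∀ i j, i ≤ 2 * m + 1 → j ≤ 2 * m + 1 → i ≠ j → θs i ≠ θs j :=
    fun i j hi hj hij => (p.pa1 i j hi hj hij).2
  have hβ := (typeII_shape (by omega) hs hdist hv2).1
  rw [hβ] at hs
  have hF := formII_of_array hm p hv2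
  have hb : θs 1 - θs 0 ≠ 0 := sub_ne_zero.2 (hdist 1 0 (by omega) (by omega) (by omega))
  have hδs : θs 0 - θs 2 ≠ 0 := sub_ne_zero.2 (hdist 0 2 (by omega) (by omega) (by omega))
  have hX : (θs 1 - θs 0) + (θs 0 - θs 2) ≠ 0 := by
    have : θs 1 - θs 2 ≠ 0 := sub_ne_zero.2 (hdist 1 2 (by omega) (by omega) (by omega))
    intro h; apply this; linear_combination h
  obtain ⟨b, hbd⟩ : ∃ b, b = θs 1 - θs 0 := ⟨_, rfl⟩
  obtain ⟨e, he⟩ : ∃ e, e = θs 0 - θs 2 := ⟨_, rfl⟩
  obtain ⟨δ, hδ⟩ : ∃ δ, δ = θ 0 - θ 2 := ⟨_, rfl⟩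
  obtain ⟨r, hr⟩ : ∃ r, r = vphi 1 := ⟨_, rfl⟩
  obtain ⟨s, hs1⟩ : ∃ s, s = phi 1 := ⟨_, rfl⟩
  rw [← hδ, ← hr, ← hs1] at hF ⊢
  rw [← hbd] at hb hX ⊢
  rw [← he] at hδs hX ⊢
  -- products
  have prodO : ∀ {δ r s c : K} {θ vphi phi : ℕ → K}, FormII m θs δ r s c θ vphi phi →
      ∀ j : ℕ, j ≤ m → vphi (2 * j + 1) * phi (2 * j + 1) =
        r * s - (((r - s) / b) ^ 2 * e + δ * (r + s)) * (j * (b + j * e)) +
          δ ^ 2 * (j * (b + j * e)) ^ 2 := by
    intro δ r s c θ vphi phi hF j hj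
    rw [hF.fo j hj, hF.po j hj, ← hbd, ← he]
    obtain ⟨τ, hτ⟩ : ∃ τ, τ = (r - s) / b := ⟨_, rfl⟩
    have hrs : r = s + b * τ := by rw [hτ]; field_simp; ring
    rw [← hτ, hrs]
    ring
  have prodE : ∀ {δ r s c : K} {θ vphi phi : ℕ → K}, FormII m θs δ r s c θ vphi phi →
      ∀ j : ℕ, 1 ≤ j → j ≤ m → vphi (2 * j) * phi (2 * j) =
        δ ^ 2 * (j * ((m : K) + 1 - j) * e) ^ 2 := by
    intro δ r s c θ vphi phi hF j h1 hj
    rw [hF.fe j h1 hj, hF.pe j h1 hj, ← he]
    ring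
  have hme : (((1 : ℕ) : K) * ((m : K) + 1 - ((1 : ℕ) : K)) * e) ^ 2 ≠ 0 := by
    have h := (p.pa2 2 (by omega) (by omega))
    have h3 := prodE hF 1 le_rfl hm
    have h4 : vphi (2 * 1) * phi (2 * 1) ≠ 0 := mul_ne_zero h.1 h.2
    rw [h3] at h4
    exact right_ne_zero_of_mul h4
  -- the equation for the middle coefficient
  have mid : ∀ {δ' r' s' ε : K}, ε * ε = 1 → δ' = ε * δ → r' * s' = r * s →
      (((r' - s') / b) ^ 2 * e + δ' * (r' + s') - (((r - s) / b) ^ 2 * e + δ * (r + s))) * b ^ 2 =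
        (ε * (r' + s') - (r + s)) * ((ε * (r' + s') + (r + s)) * e + δ * b ^ 2) := by
    intro δ' r' s' ε hε h1 h2
    rw [h1]
    have k1 : ((r' - s') / b) ^ 2 * b ^ 2 = (r' - s') ^ 2 := by field_simp
    have k2 : ((r - s) / b) ^ 2 * b ^ 2 = (r - s) ^ 2 := by field_simp
    linear_combination e * k1 - e * k2 - 4 * e * h2 - (r' + s') ^ 2 * e * hε
  constructor
  · rintro ⟨p', hprod⟩
    have p'' : IsParameterArray (2 * m + 1) θ' θs vphi' phi' :=
      p'.congr fun i hi => (hθs i hi).symm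
    have hF' := formII_of_array hm p'' hv2
    refine ⟨fun i j hi hj hij => (p'.pa1 i j hi hj hij).1, _, _, _, _, hF', ?_⟩
    obtain ⟨δ', hδ'⟩ : ∃ δ', δ' = θ' 0 - θ' 2 := ⟨_, rfl⟩
    obtain ⟨r', hr'⟩ : ∃ r', r' = vphi' 1 := ⟨_, rfl⟩
    obtain ⟨s', hs'⟩ : ∃ s', s' = phi' 1 := ⟨_, rfl⟩
    rw [← hδ', ← hr', ← hs'] at hF' ⊢
    have q0 := hprod 1 le_rfl (by omega)
    have q0' : r' * s' = r * s := by rw [hr', hs', hr, hs1]; exact q0
    have q1 := hprod (2 * 1) (by omega) (by omega)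
    rw [prodE hF' 1 le_rfl hm, prodE hF 1 le_rfl hm] at q1
    have q1' : δ' ^ 2 = δ ^ 2 := mul_right_cancel₀ hme q1
    have q2 := hprod (2 * 1 + 1) (by omega) (by omega)
    rw [prodO hF' 1 hm, prodO hF 1 hm, q0', q1'] at q2
    have q2' : ((r' - s') / b) ^ 2 * e + δ' * (r' + s') - (((r - s) / b) ^ 2 * e + δ * (r + s)) =
        0 := by
      apply mul_left_cancel₀ hX
      push_cast at q2
      linear_combination -q2
    obtain ⟨ε, hε, hδε⟩ : ∃ ε : K, (ε = 1 ∨ ε = -1) ∧ δ' = ε * δ := by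
      rcases sq_eq_sq_iff_eq_or_eq_neg.1 q1' with h | h
      · exact ⟨1, Or.inl rfl, by rw [h]; ring⟩
      · exact ⟨-1, Or.inr rfl, by rw [h]; ring⟩
    have hε2 : ε * ε = 1 := by rcases hε with h | h <;> rw [h] <;> ring
    have hm' := mid hε2 hδε q0'
    rw [q2', zero_mul] at hm'
    rcases mul_eq_zero.1 hm'.symm with h | h
    · left
      refine ⟨ε, hε, hδε, ?_⟩
      have h5 : (r' - ε * r) * (r' - ε * s) = 0 := by
        linear_combination -q0' + r * s * hε2 + ε * r' * h - r' * (r' + s') * hε2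
      rcases mul_eq_zero.1 h5 with h6 | h6
      · left
        exact ⟨by linear_combination h6,
          by linear_combination ε * h - h6 - (r' + s') * hε2⟩
      · right
        exact ⟨by linear_combination h6,
          by linear_combination ε * h - h6 - (r' + s') * hε2⟩
    · right
      refine ⟨ε, hε, hδε, q0', ?_⟩
      field_simp
      linear_combination h
  · rintro ⟨hdist', δ', r', s', c', hF', hcase⟩
    obtain ⟨ε, hε, hδε, q0, hz⟩ : ∃ ε : K, (ε = 1 ∨ ε = -1) ∧ δ' = ε * δ ∧ r' * s' = r * s ∧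
        (ε * (r' + s') - (r + s)) * ((ε * (r' + s') + (r + s)) * e + δ * b ^ 2) = 0 := by
      rcases hcase with ⟨ε, hε, h1, h2⟩ | ⟨ε, hε, h1, h2, h3⟩
      · have hε2 : ε * ε = 1 := by rcases hε with h | h <;> rw [h] <;> ring
        refine ⟨ε, hε, h1, ?_, ?_⟩
        · rcases h2 with ⟨a1, a2⟩ | ⟨a1, a2⟩ <;> rw [a1, a2] <;>
            linear_combination r * s * hε2
        · have : ε * (r' + s') - (r + s) = 0 := by
            rcases h2 with ⟨a1, a2⟩ | ⟨a1, a2⟩ <;> rw [a1, a2] <;>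
              linear_combination (r + s) * hε2
          rw [this, zero_mul]
      · refine ⟨ε, hε, h1, h2, ?_⟩
        have : (ε * (r' + s') + (r + s)) * e + δ * b ^ 2 = 0 := by
          rw [h3]; field_simp; ring
        rw [this, mul_zero]
    have hε2 : ε * ε = 1 := by rcases hε with h | h <;> rw [h] <;> ring
    have hm' := mid hε2 hδε q0
    rw [hz] at hm'
    have hb2 : b ^ 2 ≠ 0 := pow_ne_zero _ hb
    have hmid : ((r' - s') / b) ^ 2 * e + δ' * (r' + s') =
        ((r - s) / b) ^ 2 * e + δ * (r + s) := by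
      rcases mul_eq_zero.1 hm' with h | h
      · linear_combination h
      · exact absurd h hb2
    have hδ2 : δ' ^ 2 = δ ^ 2 := by rw [hδε]; linear_combination δ ^ 2 * hε2
    have hprod : ∀ i, 1 ≤ i → i ≤ 2 * m + 1 → vphi' i * phi' i = vphi i * phi i := by
      intro i h1 hi
      rcases Nat.even_or_odd' i with ⟨j, hj | hj⟩
      · subst hj
        rw [prodE hF' j (by omega) (by omega), prodE hF j (by omega) (by omega), hδ2]
      · subst hj
        rw [prodO hF' j (by omega), prodO hF j (by omega), q0, hδ2, hmid]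
    refine ⟨?_, hprod⟩
    have hnz : ∀ i, 1 ≤ i → i ≤ 2 * m + 1 → vphi' i ≠ 0 ∧ phi' i ≠ 0 := by
      intro i h1 hi
      have h := hprod i h1 hi
      have hne : vphi i * phi i ≠ 0 := mul_ne_zero (p.pa2 i h1 hi).1 (p.pa2 i h1 hi).2
      rw [← h] at hne
      exact ⟨left_ne_zero_of_mul hne, right_ne_zero_of_mul hne⟩
    exact (array_of_formII hm hs hdist hv2 hF' hdist' hnz).congr hθs

end Pool.Agent.R859.PA
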