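import Pool.Agent.R859.PA.MainI
import Pool.Agent.R859.PA.TypeII
import Pool.Agent.R859.PA.Small

set_option autoImplicit false

/-! The complete classification. -/

open Finset

namespace Pool.Agent.R859.PA

variable {K : Type*} [Field K]

/-- `(θ'; θ*'; φ'; ϕ')` is a parameter array of diameter `d` with the same dual eigenvalues `θ*`
and the same products `φ_i ϕ_i` as `(θ; θ*; φ; ϕ)`. -/
def IsSolution (d : ℕ) (θs vphi phi θ' θs' vphi' phi' : ℕ → K) : Prop :=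
  IsParameterArray d θ' θs' vphi' phi' ∧ (∀ i, i ≤ d → θs' i = θs i) ∧
    (∀ i, 1 ≤ i → i ≤ d → vphi' i * phi' i = vphi i * phi i)

/-- The terms `x_0, ..., x_d` are mutually distinct. -/
def Distinct (d : ℕ) (x : ℕ → K) : Prop := ∀ i j, i ≤ d → j ≤ d → i ≠ j → x i ≠ x j

/-- The solutions of diameter one. -/
def Sol1 (θs vphi phi θ' vphi' phi' : ℕ → K) : Prop :=
  ∃ r : K, r ≠ 0 ∧ r ^ 2 ≠ vphi 1 * phi 1 ∧ vphi' 1 = r ∧ phi' 1 = vphi 1 * phi 1 / r ∧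
    θ' 1 = θ' 0 - (r - vphi 1 * phi 1 / r) / (θs 1 - θs 0)

/-- The solutions of diameter two. -/
def Sol2 (θs vphi phi θ' vphi' phi' : ℕ → K) : Prop :=
  Distinct 2 θ' ∧ ∃ r s : K, r ≠ 0 ∧ s ≠ 0 ∧
    (θs 1 - θs 0) * (s - vphi 2 * phi 2 / s) = (θs 2 - θs 1) * (r - vphi 1 * phi 1 / r) ∧
    vphi' 1 = r ∧ phi' 1 = vphi 1 * phi 1 / r ∧ vphi' 2 = s ∧ phi' 2 = vphi 2 * phi 2 / s ∧
    θ' 2 = θ' 0 - (r - vphi 1 * phi 1 / r) / (θs 1 - θs 0) ∧
    θ' 1 = θ' 2 + (s - vphi 1 * phi 1 / r) / (θs 2 - θs 0)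

/-- The solutions of diameter `d ≥ 3` of the first type. -/
def SolI (d : ℕ) (θ θs phi θ' vphi' phi' : ℕ → K) : Prop :=
  Distinct d θ' ∧ ∃ A' B' C' c' : K, FormI d θs A' B' C' c' θ' vphi' phi' ∧
    ∃ A B C : K, A = (θ 1 - θ d) / vt d θs 2 ∧ B = (θ (d - 1) - θ 0) / vt d θs 2 ∧
      C = phi 1 - B * θs 1 - A * θs 0 ∧
      (Triv A B C A' B' C' ∨ Twist (bet θs) (gam θs) (rho θs) A B C A' B' C' ∨
        DegQ (bet θs) (gam θs) (rho θs) A B C A' B' C' ∨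
        DegK (bet θs) (gam θs) (rho θs) A B C A' B' C')

/-- The solutions of diameter `2 m + 1` of the second type. -/
def SolII (m : ℕ) (θ θs vphi phi θ' vphi' phi' : ℕ → K) : Prop :=
  Distinct (2 * m + 1) θ' ∧ ∃ δ' r' s' c' : K, FormII m θs δ' r' s' c' θ' vphi' phi' ∧
    (TrivII (θ 0 - θ 2) (vphi 1) (phi 1) δ' r' s' ∨
      TwistII (θs 1 - θs 0) (θs 0 - θs 2) (θ 0 - θ 2) (vphi 1) (phi 1) δ' r' s')

theorem classification {d : ℕ} {θ θs vphi phi : ℕ → K} (p : IsParameterArray d θ θs vphi phi)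
    (θ' θs' vphi' phi' : ℕ → K) :
    IsSolution d θs vphi phi θ' θs' vphi' phi' ↔
      (∀ i, i ≤ d → θs' i = θs i) ∧
      (d = 0 ∨ (d = 1 ∧ Sol1 θs vphi phi θ' vphi' phi') ∨
        (d = 2 ∧ Sol2 θs vphi phi θ' vphi' phi') ∨
        (3 ≤ d ∧ vt d θs 2 ≠ 0 ∧ SolI d θ θs phi θ' vphi' phi') ∨
        (∃ m, 1 ≤ m ∧ d = 2 * m + 1 ∧ vt d θs 2 = 0 ∧
          SolII m θ θs vphi phi θ' vphi' phi')) := by
  unfold IsSolution
  by_cases hθs : ∀ i, i ≤ d → θs' i = θs i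
  swap
  · exact ⟨fun h => absurd h.2.1 hθs, fun h => absurd h.1 hθs⟩
  have e1 : (IsParameterArray d θ' θs' vphi' phi' ∧ (∀ i, i ≤ d → θs' i = θs i) ∧
      (∀ i, 1 ≤ i → i ≤ d → vphi' i * phi' i = vphi i * phi i)) ↔
      (IsParameterArray d θ' θs' vphi' phi' ∧
        (∀ i, 1 ≤ i → i ≤ d → vphi' i * phi' i = vphi i * phi i)) :=
    ⟨fun h => ⟨h.1, h.2.2⟩, fun h => ⟨h.1, hθs, h.2⟩⟩
  rw [e1, and_iff_right hθs]
  by_cases hd3 : 3 ≤ d
  · by_cases hv : vt d θs 2 = 0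
    · obtain ⟨-, m, hm⟩ := typeII_shape hd3 (p.recS hd3)
        (fun i j hi hj hij => (p.pa1 i j hi hj hij).2) hv
      subst hm
      rw [typeII (by omega) p hv θ' θs' vphi' phi' hθs]
      constructor
      · intro h
        exact Or.inr (Or.inr (Or.inr (Or.inr ⟨m, by omega, rfl, hv, h⟩)))
      · rintro (h | ⟨h, -⟩ | ⟨h, -⟩ | ⟨-, h, -⟩ | ⟨m', -, hm', -, h⟩)
        · omega
        · omega
        · omega
        · exact absurd hv h
        · have : m' = m := by omega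
          subst this
          exact h
    · rw [typeI hd3 p hv θ' θs' vphi' phi' hθs]
      constructor
      · intro h
        exact Or.inr (Or.inr (Or.inr (Or.inl ⟨hd3, hv, h⟩)))
      · rintro (h | ⟨h, -⟩ | ⟨h, -⟩ | ⟨-, -, h⟩ | ⟨m', -, -, h, -⟩)
        · omega
        · omega
        · omega
        · exact h
        · exact absurd h hv
  · have hcase : d = 0 ∨ d = 1 ∨ d = 2 := by omega
    rcases hcase with rfl | rfl | rfl
    · exact ⟨fun _ => Or.inl rfl, fun _ => ⟨small0 _ _ _ _, fun i h1 h2 => by omega⟩⟩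
    · rw [small1 p θ' θs' vphi' phi' hθs]
      constructor
      · intro h
        exact Or.inr (Or.inl ⟨rfl, h⟩)
      · rintro (h | ⟨-, h⟩ | ⟨h, -⟩ | ⟨h, -, -⟩ | ⟨m', h, h', -, -⟩)
        · omega
        · exact h
        · omega
        · omega
        · omega
    · rw [small2 p θ' θs' vphi' phi' hθs]
      constructor
      · intro h
        exact Or.inr (Or.inr (Or.inl ⟨rfl, h⟩))
      · rintro (h | ⟨h, -⟩ | ⟨-, h⟩ | ⟨h, -, -⟩ | ⟨m', h, h', -, -⟩)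
        · omega
        · omega
        · exact h
        · omega
        · omega

end Pool.Agent.R859.PA
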