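import Mathlib

set_option autoImplicit false

/-! Parameter arrays of Leonard systems: definitions and basic facts about recurrent sequences. -/

open Finset

namespace Pool.Agent.R859.PA

variable {K : Type*} [Field K]

/-- The sums `∑_{h=0}^{i-1} (x_h - x_{d-h}) / (x_0 - x_d)` occurring in (PA3) and (PA4). -/
def vt (d : ℕ) (x : ℕ → K) (i : ℕ) : K := ∑ h ∈ range i, (x h - x (d - h)) / (x 0 - x d)

/-- `(θ_0..θ_d; θ*_0..θ*_d; φ_1..φ_d; ϕ_1..ϕ_d)` is a parameter array of diameter `d` over `K`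
(`θs = θ*`, `vphi = φ`, `phi = ϕ`). Sequences are functions on `ℕ`; only the entries with indices
`0..d` (for `θ, θ*`) and `1..d` (for `φ, ϕ`) are used. -/
structure IsParameterArray (d : ℕ) (θ θs vphi phi : ℕ → K) : Prop where
  pa1 : ∀ i j, i ≤ d → j ≤ d → i ≠ j → θ i ≠ θ j ∧ θs i ≠ θs j
  pa2 : ∀ i, 1 ≤ i → i ≤ d → vphi i ≠ 0 ∧ phi i ≠ 0
  pa3 : ∀ i, 1 ≤ i → i ≤ d →
    vphi i = phi 1 * vt d θ i + (θs i - θs 0) * (θ (i - 1) - θ d)
  pa4 : ∀ i, 1 ≤ i → i ≤ d →
    phi i = vphi 1 * vt d θ i + (θs i - θs 0) * (θ (d - i + 1) - θ 0)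
  pa5 : ∀ i j, 2 ≤ i → i + 1 ≤ d → 2 ≤ j → j + 1 ≤ d →
    (θ (i - 2) - θ (i + 1)) / (θ (i - 1) - θ i) =
      (θs (j - 2) - θs (j + 1)) / (θs (j - 1) - θs j)

/-- `x_{i+2} = γ + β x_{i+1} - x_i` on the indices `0..d`. -/
def Rec (d : ℕ) (β γ : K) (x : ℕ → K) : Prop :=
  ∀ i, i + 2 ≤ d → x (i + 2) = γ + β * x (i + 1) - x i

theorem rec_of_diff {d : ℕ} {β : K} {x : ℕ → K}
    (h : ∀ i, i + 3 ≤ d → x i - x (i + 3) = (β + 1) * (x (i + 1) - x (i + 2))) :
    Rec d β (x 0 - β * x 1 + x 2) x := by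
  intro i
  induction i with
  | zero => intro _; ring
  | succ n ih =>
    intro hn
    have h1 := ih (by omega)
    have h2 := h n (by omega)
    have e1 : n + 1 + 2 = n + 3 := by ring
    have e2 : n + 1 + 1 = n + 2 := by ring
    rw [e1, e2]
    linear_combination h1 - h2

theorem core {d : ℕ} {β γ γ' : K} {x y : ℕ → K} (hx : Rec d β γ x) (hy : Rec d β γ' y) (n : ℕ) :
    ∀ i, i + n + 1 ≤ d →
      (x (i + n + 1) - x i) * (y (i + n) - y (i + 1)) =
        (y (i + n + 1) - y i) * (x (i + n) - x (i + 1)) := by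
  induction n using Nat.strong_induction_on with
  | _ n ih =>
    intro i hi
    match n, ih, hi with
    | 0, _, _ => simp only [add_zero]; ring
    | 1, _, _ => ring
    | (m + 2), ih, hi =>
      have h1 := ih m (by omega) (i + 1) (by omega)
      have e1 : i + 1 + m + 1 = i + m + 2 := by ring
      have e2 : i + 1 + m = i + m + 1 := by ring
      have e3 : i + 1 + 1 = i + 2 := by ring
      rw [e1, e2, e3] at h1
      have a1 := hx (i + m + 1) (by omega)
      have a2 := hx i (by omega)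
      have b1 := hy (i + m + 1) (by omega)
      have b2 := hy i (by omega)
      have e4 : i + m + 1 + 2 = i + m + 3 := by ring
      have e5 : i + m + 1 + 1 = i + m + 2 := by ring
      rw [e4, e5] at a1 b1
      have e6 : i + (m + 2) + 1 = i + m + 3 := by ring
      have e7 : i + (m + 2) = i + m + 2 := by ring
      rw [e6, e7]
      linear_combination h1 + (y (i + m + 2) - y (i + 1)) * (a1 - a2) -
        (x (i + m + 2) - x (i + 1)) * (b1 - b2)

theorem core0 {d : ℕ} {β γ γ' : K} {x y : ℕ → K} (hx : Rec d β γ x) (hy : Rec d β γ' y) {j : ℕ}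
    (hj1 : 1 ≤ j) (hj : j ≤ d) :
    (x j - x 0) * (y (j - 1) - y 1) = (y j - y 0) * (x (j - 1) - x 1) := by
  have := core hx hy (j - 1) 0 (by omega)
  have e1 : 0 + (j - 1) + 1 = j := by omega
  have e2 : 0 + (j - 1) = j - 1 := by omega
  rw [e1, e2] at this
  simpa using this

theorem refl_rec {d : ℕ} {β γ : K} {x : ℕ → K} (hx : Rec d β γ x) {h : ℕ} (hh : h + 2 ≤ d) :
    x (h + 2) - x (d - (h + 2)) =
      β * (x (h + 1) - x (d - (h + 1))) - (x h - x (d - h)) := by
  have h1 := hx h hh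
  have h2 := hx (d - (h + 2)) (by omega)
  have e1 : d - (h + 2) + 2 = d - h := by omega
  have e2 : d - (h + 2) + 1 = d - (h + 1) := by omega
  rw [e1, e2] at h2
  linear_combination h1 - h2

theorem univ {d : ℕ} (hd : 1 ≤ d) {β γ γ' : K} {x y : ℕ → K} (hx : Rec d β γ x)
    (hy : Rec d β γ' y) (h : ℕ) (hh : h ≤ d) :
    (x h - x (d - h)) * (y 0 - y d) = (x 0 - x d) * (y h - y (d - h)) := by
  induction h using Nat.strong_induction_on with
  | _ h ih =>
    match h, ih, hh with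
    | 0, _, _ => simp only [Nat.sub_zero]
    | 1, _, _ =>
      have := core0 hx hy hd le_rfl
      linear_combination -this
    | (m + 2), ih, hh =>
      have h1 := ih m (by omega) (by omega)
      have h2 := ih (m + 1) (by omega) (by omega)
      have a := refl_rec hx hh
      have b := refl_rec hy hh
      linear_combination (y 0 - y d) * a - (x 0 - x d) * b + β * h2 - h1

theorem vt_eq {d : ℕ} (hd : 1 ≤ d) {β γ γ' : K} {x y : ℕ → K} (hx : Rec d β γ x)
    (hy : Rec d β γ' y) (hx0 : x 0 ≠ x d) (hy0 : y 0 ≠ y d) {i : ℕ} (hi : i ≤ d + 1) :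
    vt d x i = vt d y i := by
  unfold vt
  refine Finset.sum_congr rfl fun h hh => ?_
  have hh' : h ≤ d := by have := Finset.mem_range.1 hh; omega
  rw [div_eq_div_iff (sub_ne_zero.2 hx0) (sub_ne_zero.2 hy0)]
  have := univ hd hx hy h hh'
  linear_combination this

theorem vt_zero (d : ℕ) (x : ℕ → K) : vt d x 0 = 0 := by simp [vt]

theorem vt_one {d : ℕ} {x : ℕ → K} (h : x 0 ≠ x d) : vt d x 1 = 1 := by
  simp [vt, div_self (sub_ne_zero.2 h)]

theorem vt_succ (d : ℕ) (x : ℕ → K) (i : ℕ) :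
    vt d x (i + 1) = vt d x i + (x i - x (d - i)) / (x 0 - x d) := by
  simp [vt, Finset.sum_range_succ]

theorem vt_top (d : ℕ) (x : ℕ → K) : vt d x (d + 1) = 0 := by
  unfold vt
  rw [← Finset.sum_div]
  have h1 : ∑ h ∈ range (d + 1), (x h - x (d - h)) = 0 := by
    rw [Finset.sum_sub_distrib]
    have := Finset.sum_range_reflect x (d + 1)
    simp only [Nat.add_sub_cancel] at this
    rw [← this]
    simp
  rw [h1, zero_div]

theorem vt_symm (d : ℕ) (x : ℕ → K) (i : ℕ) (hi : i ≤ d + 1) :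
    vt d x (d + 1 - i) = vt d x i := by
  induction i with
  | zero => rw [Nat.sub_zero, vt_top, vt_zero]
  | succ n ih =>
    have h1 := ih (by omega)
    have e1 : d + 1 - n = (d - n) + 1 := by omega
    have e2 : d + 1 - (n + 1) = d - n := by omega
    have e3 : d - (d - n) = n := by omega
    rw [e1, vt_succ, e3] at h1
    rw [e2, vt_succ]
    have : (x (d - n) - x n) / (x 0 - x d) = - ((x n - x (d - n)) / (x 0 - x d)) := by
      rw [← neg_div, neg_sub]
    rw [this] at h1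
    linear_combination h1

theorem vt_rec {d : ℕ} {β γ : K} {x : ℕ → K} (hx : Rec d β γ x) :
    Rec (d + 1) β (vt d x 2 - β * vt d x 1) (vt d x) := by
  intro i
  induction i with
  | zero => intro _; rw [vt_zero]; ring_nf
  | succ n ih =>
    intro hn
    have h1 := ih (by omega)
    have e1 : n + 1 + 2 = (n + 2) + 1 := by ring
    have e2 : n + 1 + 1 = n + 2 := by ring
    rw [e1, e2, vt_succ d x (n + 2)]
    have h2 := vt_succ d x (n + 1)
    rw [e2] at h2
    have h3 := vt_succ d x n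
    have h4 := refl_rec hx (h := n) (by omega)
    rw [h4]
    have h5 : (β * (x (n + 1) - x (d - (n + 1))) - (x n - x (d - n))) / (x 0 - x d) =
        β * ((x (n + 1) - x (d - (n + 1))) / (x 0 - x d)) - (x n - x (d - n)) / (x 0 - x d) := by
      rw [sub_div, mul_div_assoc]
    rw [h5]
    linear_combination h1 - β * h2 + h3

theorem Rec.mono {d d' : ℕ} {β γ : K} {x : ℕ → K} (hx : Rec d β γ x) (h : d' ≤ d) :
    Rec d' β γ x := fun i hi => hx i (by omega)

/-- The parameter `β` of the sequence `x`. -/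
def bet (x : ℕ → K) : K := (x 0 - x 3) / (x 1 - x 2) - 1

/-- `γ = x_0 - β x_1 + x_2`. -/
def gam (x : ℕ → K) : K := x 0 - bet x * x 1 + x 2

/-- `ϱ = x_0^2 - β x_0 x_1 + x_1^2 - γ (x_0 + x_1)`. -/
def rho (x : ℕ → K) : K :=
  x 0 ^ 2 - bet x * (x 0 * x 1) + x 1 ^ 2 - gam x * (x 0 + x 1)

theorem IsParameterArray.recS {d : ℕ} {θ θs vphi phi : ℕ → K}
    (p : IsParameterArray d θ θs vphi phi) (hd : 3 ≤ d) : Rec d (bet θs) (gam θs) θs := by
  apply rec_of_diff
  intro i hi
  have h1 := p.pa5 2 (i + 2) le_rfl (by omega) (by omega) (by omega)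
  have h2 := p.pa5 2 2 le_rfl (by omega) le_rfl (by omega)
  rw [h2] at h1
  have e1 : i + 2 - 2 = i := by omega
  have e2 : i + 2 - 1 = i + 1 := by omega
  have e3 : i + 2 + 1 = i + 3 := by omega
  rw [e1, e2, e3] at h1
  have hne : θs (i + 1) - θs (i + 2) ≠ 0 :=
    sub_ne_zero.2 (p.pa1 (i + 1) (i + 2) (by omega) (by omega) (by omega)).2
  rw [eq_div_iff hne] at h1
  unfold bet
  simp only [Nat.sub_self, Nat.reduceAdd, Nat.reduceSub] at h1
  rw [sub_add_cancel]
  exact h1.symm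

theorem IsParameterArray.recT {d : ℕ} {θ θs vphi phi : ℕ → K}
    (p : IsParameterArray d θ θs vphi phi) (hd : 3 ≤ d) :
    Rec d (bet θs) (θ 0 - bet θs * θ 1 + θ 2) θ := by
  apply rec_of_diff
  intro i hi
  have h1 := p.pa5 (i + 2) 2 (by omega) (by omega) le_rfl (by omega)
  have e1 : i + 2 - 2 = i := by omega
  have e2 : i + 2 - 1 = i + 1 := by omega
  have e3 : i + 2 + 1 = i + 3 := by omega
  rw [e1, e2, e3] at h1
  have hne : θ (i + 1) - θ (i + 2) ≠ 0 :=
    sub_ne_zero.2 (p.pa1 (i + 1) (i + 2) (by omega) (by omega) (by omega)).1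
  rw [div_eq_iff hne] at h1
  unfold bet
  simp only [Nat.sub_self, Nat.reduceAdd, Nat.reduceSub] at h1
  rw [sub_add_cancel]
  exact h1

theorem IsParameterArray.congr {d : ℕ} {θ θs θs' vphi phi : ℕ → K}
    (p : IsParameterArray d θ θs vphi phi) (h : ∀ i, i ≤ d → θs' i = θs i) :
    IsParameterArray d θ θs' vphi phi where
  pa1 := fun i j hi hj hij => by
    rw [h i hi, h j hj]; exact p.pa1 i j hi hj hij
  pa2 := p.pa2
  pa3 := fun i h1 hi => by
    rw [h i hi, h 0 (Nat.zero_le _)]; exact p.pa3 i h1 hi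
  pa4 := fun i h1 hi => by
    rw [h i hi, h 0 (Nat.zero_le _)]; exact p.pa4 i h1 hi
  pa5 := fun i j h1 hi h2 hj => by
    rw [h (j - 2) (by omega), h (j + 1) (by omega), h (j - 1) (by omega), h j (by omega)]
    exact p.pa5 i j h1 hi h2 hj

/-- The key identity. -/
theorem key {d : ℕ} {β γ : K} {x : ℕ → K} (hx : Rec d β γ x) (h0 : x 0 ≠ x d) {i : ℕ}
    (hi1 : 1 ≤ i) (hi : i ≤ d) :
    vt d x i * (x (i - 1) - x 1) = (x i - x 0) * (vt d x (i - 1) - 1) := by
  have h := core0 ((vt_rec hx).mono (Nat.le_succ d)) hx hi1 hi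
  rw [vt_zero, vt_one h0, sub_zero] at h
  exact h

/-- The Askey-Wilson relation between consecutive terms. -/
theorem aw {d : ℕ} {β γ : K} {x : ℕ → K} (hx : Rec d β γ x) (i : ℕ) (hi : i + 1 ≤ d) :
    x (i + 1) ^ 2 + x i ^ 2 = β * (x (i + 1) * x i) + γ * (x (i + 1) + x i) +
      (x 0 ^ 2 - β * (x 0 * x 1) + x 1 ^ 2 - γ * (x 0 + x 1)) := by
  induction i with
  | zero => ring
  | succ n ih =>
    have h1 := ih (by omega)
    have h2 := hx n (by omega)
    have e2 : n + 1 + 1 = n + 2 := by ring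
    rw [e2]
    linear_combination h1 + (x (n + 2) - x n) * h2

end Pool.Agent.R859.PA
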