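import Mathlib

set_option autoImplicit false

/-! Solution of the system of three quadratic equations. -/

namespace Pool.Agent.R859.PA

variable {K : Type*} [Field K]

/-- The four solutions `±(A, B, C)` and `±(B, A, C)`. -/
def Triv (A B C A' B' C' : K) : Prop :=
  ∃ ε : K, (ε = 1 ∨ ε = -1) ∧ C' = ε * C ∧
    ((A' = ε * A ∧ B' = ε * B) ∨ (A' = ε * B ∧ B' = ε * A))

/-- The twisted solutions attached to a root `t` of `(β - 2) t^2 + 2 γ t + ϱ`. -/
def Twist (β γ ρ A B C A' B' C' : K) : Prop :=
  ∃ t ε : K, (ε = 1 ∨ ε = -1) ∧ (β - 2) * t ^ 2 + 2 * γ * t + ρ = 0 ∧ γ + (β - 2) * t ≠ 0 ∧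
    A' + B' = ε * (((β - 2) * C - γ * (A + B)) / (γ + (β - 2) * t)) ∧
    A' * B' = A * B + (C + t * (A + B)) * (A + B - ε * (A' + B')) / (γ + (β - 2) * t) ∧
    C' = ε * (C + t * (A + B)) - t * (A' + B')

/-- The one-parameter family occurring when the quadratic has a double root `t` and
`C + t (A + B) = 0`. -/
def DegQ (β γ ρ A B C A' B' C' : K) : Prop :=
  ∃ t : K, (β - 2) * t ^ 2 + 2 * γ * t + ρ = 0 ∧ γ + (β - 2) * t = 0 ∧
    C + t * (A + B) = 0 ∧ C' + t * (A' + B') = 0 ∧
    A' ^ 2 + β * (A' * B') + B' ^ 2 = A ^ 2 + β * (A * B) + B ^ 2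

/-- The one-parameter family occurring when `β = 2`, `γ = 0` and `A + B = 0`. -/
def DegK (β γ ρ A B C A' B' C' : K) : Prop :=
  β = 2 ∧ γ = 0 ∧ A + B = 0 ∧ A' + B' = 0 ∧ C' ^ 2 - ρ * A' ^ 2 = C ^ 2 - ρ * A ^ 2

theorem eps_sq {ε : K} (h : ε = 1 ∨ ε = -1) : ε * ε = 1 := by
  rcases h with h | h <;> rw [h] <;> ring

theorem triv_of {A B C A' B' C' ε : K} (hε : ε = 1 ∨ ε = -1) (hS : A' + B' = ε * (A + B))
    (hP : A' * B' = A * B) (hC : C' = ε * C) : Triv A B C A' B' C' := by
  have hε2 := eps_sq hε
  have h : (A' - ε * A) * (A' - ε * B) = 0 := by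
    linear_combination A' * hS - hP + A * B * hε2
  refine ⟨ε, hε, hC, ?_⟩
  rcases mul_eq_zero.1 h with h | h
  · left
    exact ⟨by linear_combination h, by linear_combination hS - h⟩
  · right
    exact ⟨by linear_combination h, by linear_combination hS - h⟩

theorem solve_mpr {β γ ρ A B C A' B' C' : K}
    (h : Triv A B C A' B' C' ∨ Twist β γ ρ A B C A' B' C' ∨ DegQ β γ ρ A B C A' B' C' ∨
      DegK β γ ρ A B C A' B' C') :
    A' ^ 2 + β * (A' * B') + B' ^ 2 = A ^ 2 + β * (A * B) + B ^ 2 ∧
    γ * (A' * B') + C' * (A' + B') = γ * (A * B) + C * (A + B) ∧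
    ρ * (A' * B') + C' ^ 2 = ρ * (A * B) + C ^ 2 := by
  rcases h with h | h | h | h
  · obtain ⟨ε, hε, hC, h⟩ := h
    have hε2 := eps_sq hε
    rcases h with ⟨h1, h2⟩ | ⟨h1, h2⟩
    · subst h1 h2 hC
      refine ⟨?_, ?_, ?_⟩
      · linear_combination (A ^ 2 + β * (A * B) + B ^ 2) * hε2
      · linear_combination (γ * (A * B) + C * (A + B)) * hε2
      · linear_combination (ρ * (A * B) + C ^ 2) * hε2
    · subst h1 h2 hC
      refine ⟨?_, ?_, ?_⟩
      · linear_combination (A ^ 2 + β * (A * B) + B ^ 2) * hε2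
      · linear_combination (γ * (A * B) + C * (A + B)) * hε2
      · linear_combination (ρ * (A * B) + C ^ 2) * hε2
  · obtain ⟨t, ε, hε, hR, hD, hS, hP, hC⟩ := h
    have hε2 := eps_sq hε
    set S := A + B with hSdef
    set D := γ + (β - 2) * t with hDdef
    set u := C + t * S with hu
    obtain ⟨S', hS'⟩ : ∃ S', S' = A' + B' := ⟨_, rfl⟩
    rw [← hS'] at hS hP hC
    -- ε S' D = (β-2) C - γ S
    have k1 : ε * S' * D = (β - 2) * C - γ * S := by
      rw [hS]
      have : ε * (ε * (((β - 2) * C - γ * S) / D)) * D =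
          (ε * ε) * (((β - 2) * C - γ * S) / D * D) := by ring
      rw [this, hε2, div_mul_cancel₀ _ hD, one_mul]
    have k2 : A' * B' * D = A * B * D + u * (S - ε * S') := by
      rw [hP, add_mul, div_mul_cancel₀ _ hD]
    have hS2 : S' ^ 2 = (ε * S') ^ 2 := by linear_combination (-(S' ^ 2)) * hε2
    refine ⟨?_, ?_, ?_⟩
    · apply mul_right_cancel₀ hD
      have e1 : A' ^ 2 + β * (A' * B') + B' ^ 2 = S' ^ 2 + (β - 2) * (A' * B') := by
        rw [hS']; ring
      have e2 : A ^ 2 + β * (A * B) + B ^ 2 = S ^ 2 + (β - 2) * (A * B) := by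
        rw [hSdef]; ring
      rw [e1, e2]
      linear_combination (β - 2) * k2 + D * hS2 + (ε * S' - S) * k1 +
        (S - ε * S') * ((β - 2) * hu - S * hDdef)
    · apply mul_right_cancel₀ hD
      rw [← hS', hC]
      linear_combination γ * k2 - (t * D) * hS2 - t * (ε * S' - S) * k1 +
        (S - ε * S') * (S * t * hDdef + (γ - D) * hu)
    · apply mul_right_cancel₀ hD
      rw [hC]
      linear_combination ρ * k2 + D * (u ^ 2 - t ^ 2 * S' ^ 2) * hε2 -
        t ^ 2 * (S - ε * S') * k1 + (S - ε * S') * u * hR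
  · obtain ⟨t, hR, hD, h1, h2, h3⟩ := h
    have hγ : γ = (2 - β) * t := by linear_combination hD
    have hρ : ρ = (β - 2) * t ^ 2 := by linear_combination hR - 2 * t * hD
    have hC : C = -(t * (A + B)) := by linear_combination h1
    have hC' : C' = -(t * (A' + B')) := by linear_combination h2
    refine ⟨h3, ?_, ?_⟩
    · rw [hγ, hC, hC']
      linear_combination (-t) * h3
    · rw [hρ, hC, hC']
      linear_combination (t ^ 2) * h3
  · obtain ⟨hβ, hγ, h1, h2, h3⟩ := h
    have hB : B = -A := by linear_combination h1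
    have hB' : B' = -A' := by linear_combination h2
    subst hB hB' hβ hγ
    refine ⟨by ring, by ring, ?_⟩
    linear_combination h3

theorem solve_mp {β γ ρ A B C A' B' C' : K} (hρ : β = 2 → γ = 0 → ρ ≠ 0)
    (h2 : β = 2 → (2 : K) ≠ 0)
    (H1 : A' ^ 2 + β * (A' * B') + B' ^ 2 = A ^ 2 + β * (A * B) + B ^ 2)
    (H2 : γ * (A' * B') + C' * (A' + B') = γ * (A * B) + C * (A + B))
    (H3 : ρ * (A' * B') + C' ^ 2 = ρ * (A * B) + C ^ 2) :
    Triv A B C A' B' C' ∨ Twist β γ ρ A B C A' B' C' ∨ DegQ β γ ρ A B C A' B' C' ∨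
      DegK β γ ρ A B C A' B' C' := by
  have H1' : (A' + B') ^ 2 + (β - 2) * (A' * B') = (A + B) ^ 2 + (β - 2) * (A * B) := by
    linear_combination H1
  by_cases hb : β = 2
  · have hS2 : (A' + B') ^ 2 = (A + B) ^ 2 := by
      rw [hb] at H1'; linear_combination H1'
    obtain ⟨ε, hε, hS⟩ : ∃ ε : K, (ε = 1 ∨ ε = -1) ∧ A' + B' = ε * (A + B) := by
      rcases sq_eq_sq_iff_eq_or_eq_neg.1 hS2 with h | h
      · exact ⟨1, Or.inl rfl, by rw [h]; ring⟩
      · exact ⟨-1, Or.inr rfl, by rw [h]; ring⟩
    have hε2 := eps_sq hε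
    have hεne : ε ≠ 0 := by
      intro h0; rw [h0] at hε2; simp at hε2
    by_cases hg : γ = 0
    · have hρ0 := hρ hb hg
      by_cases hS0 : A + B = 0
      · right; right; right
        have hS0' : A' + B' = 0 := by rw [hS, hS0, mul_zero]
        refine ⟨hb, hg, hS0, hS0', ?_⟩
        have e1 : B = -A := by linear_combination hS0
        have e2 : B' = -A' := by linear_combination hS0'
        rw [e1, e2] at H3
        linear_combination H3
      · left
        have hC : C' = ε * C := by
          apply mul_right_cancel₀ hS0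
          apply mul_left_cancel₀ hεne
          rw [hg, hS] at H2
          linear_combination H2 - C * (A + B) * hε2
        refine triv_of hε hS ?_ hC
        apply mul_left_cancel₀ hρ0
        rw [hC] at H3
        linear_combination H3 - C ^ 2 * hε2
    · have h20 := h2 hb
      set t : K := -ρ / (2 * γ) with ht
      have hρt : ρ = -(2 * γ * t) := by rw [ht]; field_simp
      have hsq : (C' + t * (A' + B')) ^ 2 = (C + t * (A + B)) ^ 2 := by
        rw [hρt] at H3
        linear_combination H3 + 2 * t * H2 + t ^ 2 * hS2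
      obtain ⟨e, he, hu⟩ : ∃ e : K, (e = 1 ∨ e = -1) ∧
          C' + t * (A' + B') = e * (C + t * (A + B)) := by
        rcases sq_eq_sq_iff_eq_or_eq_neg.1 hsq with h | h
        · exact ⟨1, Or.inl rfl, by rw [h]; ring⟩
        · exact ⟨-1, Or.inr rfl, by rw [h]; ring⟩
      by_cases hee : e = ε
      · left
        rw [hee] at hu
        have hC : C' = ε * C := by linear_combination hu - t * hS
        refine triv_of hε hS ?_ hC
        apply mul_left_cancel₀ hg
        rw [hC, hS] at H2
        linear_combination H2 - C * (A + B) * hε2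
      · right; left
        have hen : ε = -e := by
          rcases hε with h | h <;> rcases he with h' | h'
          · exact absurd (h'.trans h.symm) hee
          · rw [h, h']; ring
          · rw [h, h']
          · exact absurd (h'.trans h.symm) hee
        have he2 := eps_sq he
        have hD : γ + (β - 2) * t = γ := by rw [hb]; ring
        refine ⟨t, e, he, ?_, ?_, ?_, ?_, ?_⟩
        · rw [hb, hρt]; ring
        · rw [hD]; exact hg
        · rw [hD, hb, hS, hen]
          field_simp
          ring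
        · rw [hD]
          have key : A' * B' * γ = A * B * γ + (C + t * (A + B)) * (A + B - e * (A' + B')) := by
            have hC' : C' = e * (C + t * (A + B)) - t * (A' + B') := by linear_combination hu
            rw [hC', hS, hen] at H2
            rw [hS, hen]
            linear_combination H2 + t * (A + B) ^ 2 * he2
          field_simp
          linear_combination key
        · linear_combination hu
  · have hb2 : (2 : K) - β ≠ 0 := fun h => hb (by linear_combination -h)
    have hb3 : β - 2 ≠ 0 := fun h => hb (by linear_combination h)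
    obtain ⟨g, hg⟩ : ∃ g : K, γ = (2 - β) * g := ⟨γ / (2 - β), by field_simp⟩
    obtain ⟨s, hs⟩ : ∃ s : K, ρ = (2 - β) * (s - g ^ 2) :=
      ⟨ρ / (2 - β) + g ^ 2, by field_simp; ring⟩
    obtain ⟨S, hS⟩ : ∃ S, S = A + B := ⟨_, rfl⟩
    obtain ⟨S', hS'⟩ : ∃ S', S' = A' + B' := ⟨_, rfl⟩
    obtain ⟨c, hc⟩ : ∃ c, c = C + g * S := ⟨_, rfl⟩
    obtain ⟨c', hc'⟩ : ∃ c', c' = C' + g * S' := ⟨_, rfl⟩
    rw [← hS, ← hS'] at H1' H2
    have E1 : c' * S' = c * S := by
      rw [hg] at H2
      rw [hc, hc']
      linear_combination H2 + g * H1'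
    have E2 : c' ^ 2 + s * S' ^ 2 = c ^ 2 + s * S ^ 2 := by
      rw [hg] at H2
      rw [hs] at H3
      rw [hc, hc']
      linear_combination H3 + 2 * g * H2 + (g ^ 2 + s) * H1'
    have triv : ∀ ε : K, (ε = 1 ∨ ε = -1) → c' = ε * c → S' = ε * S →
        Triv A B C A' B' C' := by
      intro ε hε h1 h3
      have hε2 := eps_sq hε
      refine triv_of hε (by rw [← hS', ← hS]; exact h3) ?_ ?_
      · apply mul_left_cancel₀ hb3
        rw [h3] at H1'
        linear_combination H1' - S ^ 2 * hε2
      · rw [hc', hc, h3] at h1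
        linear_combination h1
    have twist : ∀ κ : K, κ ≠ 0 → κ ^ 2 = s → c' = κ * S → c = κ * S' →
        Twist β γ ρ A B C A' B' C' := by
      intro κ hκ hκs h1 h3
      have hD : γ + (β - 2) * (g + κ) = (β - 2) * κ := by rw [hg]; ring
      have hDne : (β - 2) * κ ≠ 0 := mul_ne_zero hb3 hκ
      refine ⟨g + κ, 1, Or.inl rfl, ?_, ?_, ?_, ?_, ?_⟩
      · rw [hg, hs, ← hκs]; ring
      · rw [hD]; exact hDne
      · rw [hD, one_mul, eq_div_iff hDne, ← hS, ← hS', hg]
        linear_combination (-(β - 2)) * h3 + (β - 2) * hc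
      · rw [hD, ← hS, ← hS', one_mul]
        have : A' * B' * ((β - 2) * κ) =
            A * B * ((β - 2) * κ) + (C + (g + κ) * S) * (S - S') := by
          linear_combination κ * H1' + (S - S') * (hc - h3)
        field_simp
        linear_combination this
      · rw [← hS, ← hS']
        linear_combination -hc' + h1 - h3 + hc
    by_cases hs0 : s = 0
    · have h4 : c' ^ 2 = c ^ 2 := by rw [hs0] at E2; linear_combination E2
      obtain ⟨ε, hε, h5⟩ : ∃ ε : K, (ε = 1 ∨ ε = -1) ∧ c' = ε * c := by
        rcases sq_eq_sq_iff_eq_or_eq_neg.1 h4 with h | h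
        · exact ⟨1, Or.inl rfl, by rw [h]; ring⟩
        · exact ⟨-1, Or.inr rfl, by rw [h]; ring⟩
      have hε2 := eps_sq hε
      by_cases hc0 : c = 0
      · right; right; left
        have hc0' : c' = 0 := by rw [h5, hc0, mul_zero]
        refine ⟨g, ?_, ?_, ?_, ?_, H1⟩
        · rw [hg, hs, hs0]; ring
        · rw [hg]; ring
        · rw [← hS, ← hc]; exact hc0
        · rw [← hS', ← hc']; exact hc0'
      · left
        refine triv ε hε h5 ?_
        apply mul_left_cancel₀ hc0
        rw [h5] at E1
        linear_combination ε * E1 - c * S' * hε2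
    · have E3 : (c' ^ 2 - c ^ 2) * (c' ^ 2 - s * S ^ 2) = 0 := by
        linear_combination c' ^ 2 * E2 - s * (c' * S' + c * S) * E1
      rcases mul_eq_zero.1 E3 with h | h
      · left
        have h4 : c' ^ 2 = c ^ 2 := by linear_combination h
        have h6 : S' ^ 2 = S ^ 2 := by
          apply mul_left_cancel₀ hs0
          linear_combination E2 - h4
        by_cases hc0 : c = 0
        · have hc0' : c' = 0 := by
            rw [hc0] at h4
            exact pow_eq_zero_iff (two_ne_zero) |>.1 (by rw [h4]; ring)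
          rcases sq_eq_sq_iff_eq_or_eq_neg.1 h6 with h7 | h7
          · exact triv 1 (Or.inl rfl) (by rw [hc0, hc0', mul_zero]) (by rw [h7, one_mul])
          · exact triv (-1) (Or.inr rfl) (by rw [hc0, hc0', mul_zero]) (by rw [h7]; ring)
        · obtain ⟨ε, hε, h5⟩ : ∃ ε : K, (ε = 1 ∨ ε = -1) ∧ c' = ε * c := by
            rcases sq_eq_sq_iff_eq_or_eq_neg.1 h4 with h | h
            · exact ⟨1, Or.inl rfl, by rw [h]; ring⟩
            · exact ⟨-1, Or.inr rfl, by rw [h]; ring⟩
          have hε2 := eps_sq hε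
          refine triv ε hε h5 ?_
          apply mul_left_cancel₀ hc0
          rw [h5] at E1
          linear_combination ε * E1 - c * S' * hε2
      · have h4 : c' ^ 2 = s * S ^ 2 := by linear_combination h
        have h6 : s * S' ^ 2 = c ^ 2 := by linear_combination E2 - h4
        by_cases hS0 : S = 0
        · have hc0' : c' = 0 := by
            rw [hS0] at h4
            exact pow_eq_zero_iff (two_ne_zero) |>.1 (by rw [h4]; ring)
          by_cases hc0 : c = 0
          · left
            have hS0' : S' = 0 := by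
              rw [hc0] at h6
              have : s * S' ^ 2 = 0 := by rw [h6]; ring
              rcases mul_eq_zero.1 this with h7 | h7
              · exact absurd h7 hs0
              · exact pow_eq_zero_iff (two_ne_zero) |>.1 h7
            exact triv 1 (Or.inl rfl) (by rw [hc0, hc0', mul_zero]) (by rw [hS0, hS0', mul_zero])
          · right; left
            have hS0' : S' ≠ 0 := by
              intro h7; rw [h7] at h6
              exact hc0 (pow_eq_zero_iff (two_ne_zero) |>.1 (by rw [← h6]; ring))
            refine twist (c / S') (div_ne_zero hc0 hS0') ?_ (by rw [hc0', hS0, mul_zero])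
              (by field_simp)
            rw [div_pow, ← h6]; field_simp
        · right; left
          have hc0' : c' ≠ 0 := by
            intro h7; rw [h7] at h4
            have : s * S ^ 2 = 0 := by rw [← h4]; ring
            rcases mul_eq_zero.1 this with h8 | h8
            · exact hs0 h8
            · exact hS0 (pow_eq_zero_iff (two_ne_zero) |>.1 h8)
          refine twist (c' / S) (div_ne_zero hc0' hS0) ?_ (by field_simp) ?_
          · rw [div_pow, h4]; field_simp
          · field_simp
            linear_combination -E1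

end Pool.Agent.R859.PA
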