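import Pool.Agent.R859.PA.TypeI
import Pool.Agent.R859.PA.Solve

set_option autoImplicit false

/-! Classification for the first type. -/

open Finset

namespace Pool.Agent.R859.PA

variable {K : Type*} [Field K]

theorem prod_iff {d : ℕ} (hd : 3 ≤ d) {θs : ℕ → K}
    (hs : Rec d (bet θs) (gam θs) θs)
    (hdist : ∀ i j, i ≤ d → j ≤ d → i ≠ j → θs i ≠ θs j) (hv2 : vt d θs 2 ≠ 0)
    {A B C c A' B' C' c' : K} {θ vphi phi θ' vphi' phi' : ℕ → K}
    (hF : FormI d θs A B C c θ vphi phi) (hF' : FormI d θs A' B' C' c' θ' vphi' phi') :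
    (∀ i, 1 ≤ i → i ≤ d → vphi' i * phi' i = vphi i * phi i) ↔
    (A' ^ 2 + bet θs * (A' * B') + B' ^ 2 = A ^ 2 + bet θs * (A * B) + B ^ 2 ∧
    gam θs * (A' * B') + C' * (A' + B') = gam θs * (A * B) + C * (A + B) ∧
    rho θs * (A' * B') + C' ^ 2 = rho θs * (A * B) + C ^ 2) := by
  have h0 : θs 0 ≠ θs d := hdist 0 d (by omega) le_rfl (by omega)
  have hv1 : vt d θs 1 = 1 := vt_one h0
  have hvd : vt d θs d = 1 := by
    have := vt_symm d θs 1 (by omega)
    rw [Nat.add_sub_cancel, hv1] at this; exact this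
  have pf := fun i h1 hi => prod_formula hs A B C (i := i) h1 hi
  have pf' := fun i h1 hi => prod_formula hs A' B' C' (i := i) h1 hi
  constructor
  · intro H
    have eqP : ∀ i, 1 ≤ i → i ≤ d → vt d θs i ≠ 0 →
        (A' * θs i + B' * θs (i - 1) + C') * (B' * θs i + A' * θs (i - 1) + C') =
        (A * θs i + B * θs (i - 1) + C) * (B * θs i + A * θs (i - 1) + C) := by
      intro i h1 hi hne
      have h := H i h1 hi
      rw [hF.f i h1 hi, hF.p i h1 hi, hF'.f i h1 hi, hF'.p i h1 hi] at h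
      apply mul_left_cancel₀ (mul_ne_zero hne hne)
      linear_combination h
    have q1 := eqP 1 le_rfl (by omega) (by rw [hv1]; exact one_ne_zero)
    have q2 := eqP 2 (by omega) (by omega) hv2
    have q3 := eqP d (by omega) le_rfl (by rw [hvd]; exact one_ne_zero)
    rw [pf 1 le_rfl (by omega), pf' 1 le_rfl (by omega)] at q1
    rw [pf 2 (by omega) (by omega), pf' 2 (by omega) (by omega)] at q2
    rw [pf d (by omega) le_rfl, pf' d (by omega) le_rfl] at q3
    simp only [Nat.sub_self, Nat.reduceSub] at q1 q2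
    obtain ⟨R, hR⟩ : ∃ R, R = θs 0 ^ 2 - bet θs * (θs 0 * θs 1) + θs 1 ^ 2 -
      gam θs * (θs 0 + θs 1) := ⟨_, rfl⟩
    have hR' : rho θs = R := by rw [hR]; rfl
    rw [← hR] at q1 q2 q3
    rw [hR']
    have n1 : θs 2 - θs 0 ≠ 0 := sub_ne_zero.2 (hdist 2 0 (by omega) (by omega) (by omega))
    have n2 : θs d - θs 1 ≠ 0 := sub_ne_zero.2 (hdist d 1 (by omega) (by omega) (by omega))
    have n3 : θs (d - 1) - θs 1 ≠ 0 :=
      sub_ne_zero.2 (hdist (d - 1) 1 (by omega) (by omega) (by omega))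
    obtain ⟨D1, hD1⟩ : ∃ D1, D1 = (A' ^ 2 + bet θs * (A' * B') + B' ^ 2) -
      (A ^ 2 + bet θs * (A * B) + B ^ 2) := ⟨_, rfl⟩
    obtain ⟨D2, hD2⟩ : ∃ D2, D2 = (gam θs * (A' * B') + C' * (A' + B')) -
      (gam θs * (A * B) + C * (A + B)) := ⟨_, rfl⟩
    obtain ⟨D3, hD3⟩ : ∃ D3, D3 = (R * (A' * B') + C' ^ 2) - (R * (A * B) + C ^ 2) := ⟨_, rfl⟩
    have r1 : D1 * (θs 1 * θs 0) + D2 * (θs 1 + θs 0) + D3 = 0 := by
      rw [hD1, hD2, hD3]; linear_combination q1
    have r2 : D1 * (θs 2 * θs 1) + D2 * (θs 2 + θs 1) + D3 = 0 := by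
      rw [hD1, hD2, hD3]; linear_combination q2
    have r3 : D1 * (θs d * θs (d - 1)) + D2 * (θs d + θs (d - 1)) + D3 = 0 := by
      rw [hD1, hD2, hD3]; linear_combination q3
    have s1 : D1 * θs 1 + D2 = 0 := by
      apply mul_left_cancel₀ n1
      linear_combination r2 - r1
    have s2 : D1 = 0 := by
      apply mul_left_cancel₀ (mul_ne_zero n2 n3)
      linear_combination r3 - r1 - (θs d + θs (d - 1) - θs 1 - θs 0) * s1
    have s3 : D2 = 0 := by rw [s2] at s1; linear_combination s1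
    have s4 : D3 = 0 := by rw [s2, s3] at r1; linear_combination r1
    rw [s2] at hD1
    rw [s3] at hD2
    rw [s4] at hD3
    exact ⟨by linear_combination -hD1, by linear_combination -hD2, by linear_combination -hD3⟩
  · rintro ⟨H1, H2, H3⟩ i h1 hi
    rw [hF.f i h1 hi, hF.p i h1 hi, hF'.f i h1 hi, hF'.p i h1 hi]
    have a := pf i h1 hi
    have a' := pf' i h1 hi
    have hR' : rho θs = θs 0 ^ 2 - bet θs * (θs 0 * θs 1) + θs 1 ^ 2 -
      gam θs * (θs 0 + θs 1) := rfl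
    rw [← hR'] at a a'
    linear_combination (vt d θs i) ^ 2 * (a' - a + (θs i * θs (i - 1)) * H1 +
      (θs i + θs (i - 1)) * H2 + H3)

theorem two_ne_of_typeI {d : ℕ} (hd : 3 ≤ d) {θs : ℕ → K}
    (hs : Rec d (bet θs) (gam θs) θs)
    (hdist : ∀ i j, i ≤ d → j ≤ d → i ≠ j → θs i ≠ θs j) (hv2 : vt d θs 2 ≠ 0)
    (hb : bet θs = 2) : (2 : K) ≠ 0 := by
  intro h2
  rw [hb] at hs
  have e0 := hs 0 (by omega)
  have e1 := hs 1 (by omega)
  simp only [zero_add, Nat.reduceAdd] at e0 e1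
  rw [h2] at e0 e1
  rcases Nat.lt_or_ge 3 d with h | h
  · have e3 := hs 2 (by omega)
    simp only [Nat.reduceAdd] at e3
    rw [h2] at e3
    apply hdist 4 0 (by omega) (by omega) (by omega)
    linear_combination e3 - e0
  · have hd3 : d = 3 := le_antisymm h hd
    subst hd3
    apply hv2
    have h0 : θs 0 ≠ θs 3 := hdist 0 3 (by omega) le_rfl (by omega)
    rw [vt_succ 3 θs 1, vt_one h0]
    have hne : θs 0 - θs 3 ≠ 0 := sub_ne_zero.2 h0
    simp only [Nat.reduceSub]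
    field_simp
    linear_combination -e1 - e0 + (θs 0 + θs 1 - gam θs) * h2

theorem rho_ne {d : ℕ} (hd : 3 ≤ d) {θs : ℕ → K}
    (hdist : ∀ i j, i ≤ d → j ≤ d → i ≠ j → θs i ≠ θs j)
    (hb : bet θs = 2) (hg : gam θs = 0) : rho θs ≠ 0 := by
  have : rho θs = (θs 0 - θs 1) ^ 2 := by
    unfold rho; rw [hb, hg]; ring
  rw [this]
  exact pow_ne_zero _ (sub_ne_zero.2 (hdist 0 1 (by omega) (by omega) (by omega)))

theorem typeI {d : ℕ} (hd : 3 ≤ d) {θ θs vphi phi : ℕ → K}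
    (p : IsParameterArray d θ θs vphi phi) (hv2 : vt d θs 2 ≠ 0)
    (θ' θs' vphi' phi' : ℕ → K) (hθs : ∀ i, i ≤ d → θs' i = θs i) :
    (IsParameterArray d θ' θs' vphi' phi' ∧
      (∀ i, 1 ≤ i → i ≤ d → vphi' i * phi' i = vphi i * phi i)) ↔
    ((∀ i j, i ≤ d → j ≤ d → i ≠ j → θ' i ≠ θ' j) ∧
      ∃ A' B' C' c' : K, FormI d θs A' B' C' c' θ' vphi' phi' ∧
        ∃ A B C : K, A = (θ 1 - θ d) / vt d θs 2 ∧ B = (θ (d - 1) - θ 0) / vt d θs 2 ∧
          C = phi 1 - B * θs 1 - A * θs 0 ∧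
        (Triv A B C A' B' C' ∨ Twist (bet θs) (gam θs) (rho θs) A B C A' B' C' ∨
          DegQ (bet θs) (gam θs) (rho θs) A B C A' B' C' ∨
          DegK (bet θs) (gam θs) (rho θs) A B C A' B' C')) := by
  have hs := p.recS hd
  have hdist : ∀ i j, i ≤ d → j ≤ d → i ≠ j → θs i ≠ θs j := fun i j hi hj hij =>
    (p.pa1 i j hi hj hij).2
  have hF := formI_of_array hd p hv2
  constructor
  · rintro ⟨p', hprod⟩
    have p'' : IsParameterArray d θ' θs vphi' phi' :=
      p'.congr fun i hi => (hθs i hi).symm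
    have hF' := formI_of_array hd p'' hv2
    refine ⟨fun i j hi hj hij => (p'.pa1 i j hi hj hij).1, _, _, _, _, hF', _, _, _, rfl, rfl,
      rfl, ?_⟩
    obtain ⟨H1, H2, H3⟩ := (prod_iff hd hs hdist hv2 hF hF').1 hprod
    exact solve_mp (fun hb hg => rho_ne hd hdist hb hg)
      (fun hb => two_ne_of_typeI hd hs hdist hv2 hb) H1 H2 H3
  · rintro ⟨hdist', A', B', C', c', hF', A, B, C, hA, hB, hC, hcase⟩
    have hFABC : FormI d θs A B C (θ 0 - A) θ vphi phi := by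
      rw [hC, hB, hA]; exact hF
    have hprod := (prod_iff hd hs hdist hv2 hFABC hF').2 (solve_mpr hcase)
    refine ⟨?_, hprod⟩
    have hnz : ∀ i, 1 ≤ i → i ≤ d → vphi' i ≠ 0 ∧ phi' i ≠ 0 := by
      intro i h1 hi
      have h := hprod i h1 hi
      have hne : vphi i * phi i ≠ 0 := mul_ne_zero (p.pa2 i h1 hi).1 (p.pa2 i h1 hi).2
      rw [← h] at hne
      exact ⟨left_ne_zero_of_mul hne, right_ne_zero_of_mul hne⟩
    exact (array_of_formI hd hs hdist hF' hdist' hnz).congr hθs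

end Pool.Agent.R859.PA
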