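import Pool.Agent.R859.PA.Basic

set_option autoImplicit false

/-! Parameter arrays of the first type (`vt 2 ≠ 0`). -/

open Finset

namespace Pool.Agent.R859.PA

variable {K : Type*} [Field K]

/-- The sequences are given by the formulas with coefficients `A, B, C, c`. -/
structure FormI (d : ℕ) (θs : ℕ → K) (A B C c : K) (θ vphi phi : ℕ → K) : Prop where
  th : ∀ i, i ≤ d → θ i = c + A * vt d θs (i + 1) + B * vt d θs i
  f : ∀ i, 1 ≤ i → i ≤ d → vphi i = vt d θs i * (A * θs i + B * θs (i - 1) + C)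
  p : ∀ i, 1 ≤ i → i ≤ d → phi i = vt d θs i * (B * θs i + A * θs (i - 1) + C)

theorem refl_symm_sum {d : ℕ} {θs : ℕ → K} (h0 : θs 0 ≠ θs d) {A B c : K} {θ : ℕ → K}
    (th : ∀ i, i ≤ d → θ i = c + A * vt d θs (i + 1) + B * vt d θs i) (h : ℕ) (hh : h ≤ d) :
    θ h - θ (d - h) = (A - B) * ((θs h - θs (d - h)) / (θs 0 - θs d)) := by
  rw [th h hh, th (d - h) (by omega)]
  have e1 : d - h + 1 = d + 1 - h := by omega
  have e2 : d - h = d + 1 - (h + 1) := by omega
  have s1 := vt_symm d θs h (by omega)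
  have s2 := vt_symm d θs (h + 1) (by omega)
  rw [e1, s1]
  have s3 : vt d θs (d - h) = vt d θs (h + 1) := by rw [e2]; exact s2
  rw [s3]
  have s4 := vt_succ d θs h
  linear_combination (A - B) * s4

theorem formI_of_array {d : ℕ} (hd : 3 ≤ d) {θ θs vphi phi : ℕ → K}
    (p : IsParameterArray d θ θs vphi phi) (h2 : vt d θs 2 ≠ 0) :
    FormI d θs ((θ 1 - θ d) / vt d θs 2) ((θ (d - 1) - θ 0) / vt d θs 2)
      (phi 1 - (θ (d - 1) - θ 0) / vt d θs 2 * θs 1 - (θ 1 - θ d) / vt d θs 2 * θs 0)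
      (θ 0 - (θ 1 - θ d) / vt d θs 2) θ vphi phi := by
  have hs := p.recS hd
  have ht := p.recT hd
  have hne : ∀ i j, i ≤ d → j ≤ d → i ≠ j → θ i - θ j ≠ 0 := fun i j hi hj hij =>
    sub_ne_zero.2 (p.pa1 i j hi hj hij).1
  have hnes : ∀ i j, i ≤ d → j ≤ d → i ≠ j → θs i - θs j ≠ 0 := fun i j hi hj hij =>
    sub_ne_zero.2 (p.pa1 i j hi hj hij).2
  have h0 : θs 0 ≠ θs d := (p.pa1 0 d (by omega) le_rfl (by omega)).2
  have h0' : θ 0 ≠ θ d := (p.pa1 0 d (by omega) le_rfl (by omega)).1
  set A := (θ 1 - θ d) / vt d θs 2 with hA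
  set B := (θ (d - 1) - θ 0) / vt d θs 2 with hB
  have hA' : A * vt d θs 2 = θ 1 - θ d := by rw [hA]; field_simp
  have hB' : B * vt d θs 2 = θ (d - 1) - θ 0 := by rw [hB]; field_simp
  have hv1 : vt d θs 1 = 1 := vt_one h0
  have hv0 : vt d θs 0 = 0 := vt_zero d θs
  have hvd1 : vt d θs (d + 1) = 0 := vt_top d θs
  have hvd : vt d θs d = 1 := by
    have := vt_symm d θs 1 (by omega)
    rw [Nat.add_sub_cancel, hv1] at this; exact this
  -- e_1 for both
  have hv2 : vt d θs 2 = vt d θ 2 := vt_eq (by omega) hs ht h0 h0' (by omega)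
  have he : (vt d θs 2 - 1) * (θ 0 - θ d) = θ 1 - θ (d - 1) := by
    rw [hv2, vt_succ d θ 1, vt_one h0']
    have := hne 0 d (by omega) le_rfl (by omega)
    field_simp
    ring
  have hAB : A - B = θ 0 - θ d := by
    have : (A - B) * vt d θs 2 = (θ 0 - θ d) * vt d θs 2 := by
      linear_combination hA' - hB' - he
    exact mul_right_cancel₀ h2 this
  -- the sequence of errors
  set y : ℕ → K := fun i => θ i - ((θ 0 - A) + A * vt d θs (i + 1) + B * vt d θs i) with hy
  have hyrec : ∃ g, Rec d (bet θs) g y := by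
    have hv := vt_rec hs
    refine ⟨(θ 0 - bet θs * θ 1 + θ 2) - (θ 0 - A) * (2 - bet θs) -
      A * (vt d θs 2 - bet θs * vt d θs 1) - B * (vt d θs 2 - bet θs * vt d θs 1), ?_⟩
    intro i hi
    have a1 := ht i hi
    have a2 := hv (i + 1) (by omega)
    have a3 := hv i (by omega)
    have e1 : i + 1 + 2 = i + 2 + 1 := by ring
    rw [e1] at a2
    simp only [hy]
    linear_combination a1 - A * a2 - B * a3
  obtain ⟨g, hg⟩ := hyrec
  have hy0 : y 0 = 0 := by
    simp only [hy]; rw [zero_add, hv1, hv0]; ring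
  have hy1 : y 1 = 0 := by
    simp only [hy]
    rw [show (1 + 1 : ℕ) = 2 from rfl, hv1]
    have : (θ 1 - ((θ 0 - A) + A * vt d θs 2 + B * 1)) * vt d θs 2 = 0 := by
      linear_combination (1 - vt d θs 2) * hA' - hB' - he
    rcases mul_eq_zero.1 this with h | h
    · exact h
    · exact absurd h h2
  have hyd : y d = 0 := by
    simp only [hy]
    rw [hvd1, hvd]
    linear_combination hAB
  have hyk : ∀ n, n ≤ d → y (d - n) = 0 := by
    intro n
    induction n with
    | zero => intro _; simpa using hyd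
    | succ m ih =>
      intro hm
      have h1 := ih (by omega)
      have h3 := core0 hg ht (j := d - m) (by omega) (by omega)
      rw [h1, hy0, hy1] at h3
      have e1 : d - m - 1 = d - (m + 1) := by omega
      rw [e1, sub_self, zero_mul, sub_zero] at h3
      rcases mul_eq_zero.1 h3.symm with h | h
      · exact absurd h (hne (d - m) 0 (by omega) (by omega) (by omega))
      · exact h
  have hth : ∀ i, i ≤ d → θ i = (θ 0 - A) + A * vt d θs (i + 1) + B * vt d θs i := by
    intro i hi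
    have h1 := hyk (d - i) (by omega)
    have e1 : d - (d - i) = i := by omega
    rw [e1] at h1
    simp only [hy] at h1
    linear_combination h1
  have hvt : ∀ i, i ≤ d → vt d θ i = vt d θs i := fun i hi =>
    vt_eq (by omega) ht hs h0' h0 (by omega)
  have hphi1 : vphi 1 = phi 1 + (θs 1 - θs 0) * (θ 0 - θ d) := by
    have := p.pa3 1 le_rfl (by omega)
    rw [vt_one h0'] at this
    rw [this]; simp
  refine ⟨hth, ?_, ?_⟩
  · intro i h1 hi
    rw [p.pa3 i h1 hi, hvt i hi]
    have k := key hs h0 h1 hi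
    have t1 := hth (i - 1) (by omega)
    have e1 : i - 1 + 1 = i := by omega
    rw [e1] at t1
    have t2 := hth d le_rfl
    rw [hvd1, hvd] at t2
    linear_combination (θs i - θs 0) * (t1 - t2) + (-B) * k
  · intro i h1 hi
    rw [p.pa4 i h1 hi, hvt i hi, hphi1]
    have k := key hs h0 h1 hi
    have t1 := hth (d - i + 1) (by omega)
    have t2 := hth 0 (by omega)
    have s1 : vt d θs (d - i + 1) = vt d θs i := by
      have := vt_symm d θs i (by omega)
      have e : d + 1 - i = d - i + 1 := by omega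
      rw [e] at this; exact this
    have s2 : vt d θs (d - i + 1 + 1) = vt d θs (i - 1) := by
      have := vt_symm d θs (i - 1) (by omega)
      have e : d + 1 - (i - 1) = d - i + 1 + 1 := by omega
      rw [e] at this; exact this
    rw [s1, s2] at t1
    rw [zero_add, hv1, hv0] at t2
    linear_combination (θs i - θs 0) * (t1 - t2) + (-A) * k +
      vt d θs i * (θs 1 - θs 0) * (-hAB)

theorem array_of_formI {d : ℕ} (hd : 3 ≤ d) {θ θs vphi phi : ℕ → K} {β γ : K}
    (hs : Rec d β γ θs) (hdist : ∀ i j, i ≤ d → j ≤ d → i ≠ j → θs i ≠ θs j)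
    {A B C c : K} (hF : FormI d θs A B C c θ vphi phi)
    (hdist' : ∀ i j, i ≤ d → j ≤ d → i ≠ j → θ i ≠ θ j)
    (hnz : ∀ i, 1 ≤ i → i ≤ d → vphi i ≠ 0 ∧ phi i ≠ 0) :
    IsParameterArray d θ θs vphi phi := by
  have h0 : θs 0 ≠ θs d := hdist 0 d (by omega) le_rfl (by omega)
  have h0' : θ 0 ≠ θ d := hdist' 0 d (by omega) le_rfl (by omega)
  have hv1 : vt d θs 1 = 1 := vt_one h0
  have hv0 : vt d θs 0 = 0 := vt_zero d θs
  have hvd1 : vt d θs (d + 1) = 0 := vt_top d θs
  have hvd : vt d θs d = 1 := by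
    have := vt_symm d θs 1 (by omega)
    rw [Nat.add_sub_cancel, hv1] at this; exact this
  have hth := hF.th
  have hAB : θ 0 - θ d = A - B := by
    rw [hth 0 (by omega), hth d le_rfl, zero_add, hv1, hv0, hvd1, hvd]; ring
  have hABne : A - B ≠ 0 := by rw [← hAB]; exact sub_ne_zero.2 h0'
  -- recurrence for θ
  have ht : Rec d β (c * (2 - β) + (A + B) * (vt d θs 2 - β * vt d θs 1)) θ := by
    have hv := vt_rec hs
    intro i hi
    have a2 := hv (i + 1) (by omega)
    have a3 := hv i (by omega)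
    have e1 : i + 1 + 2 = i + 2 + 1 := by ring
    rw [e1] at a2
    rw [hth (i + 2) hi, hth (i + 1) (by omega), hth i (by omega)]
    linear_combination A * a2 + B * a3
  have hvt : ∀ i, i ≤ d → vt d θ i = vt d θs i := fun i hi =>
    vt_eq (by omega) ht hs h0' h0 (by omega)
  have hphi1 : phi 1 = B * θs 1 + A * θs 0 + C := by
    have := hF.p 1 le_rfl (by omega)
    rw [hv1] at this; rw [this]; simp
  have hvphi1 : vphi 1 = A * θs 1 + B * θs 0 + C := by
    have := hF.f 1 le_rfl (by omega)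
    rw [hv1] at this; rw [this]; simp
  have ratio : ∀ {x : ℕ → K} {g : K}, Rec d β g x →
      (∀ i j, i ≤ d → j ≤ d → i ≠ j → x i ≠ x j) → ∀ i, 2 ≤ i → i + 1 ≤ d →
      (x (i - 2) - x (i + 1)) / (x (i - 1) - x i) = β + 1 := by
    intro x g hx hdx i h2 hi
    have hne : x (i - 1) - x i ≠ 0 := sub_ne_zero.2 (hdx (i - 1) i (by omega) (by omega) (by omega))
    rw [div_eq_iff hne]
    have a1 := hx (i - 1) (by omega)
    have a2 := hx (i - 2) (by omega)
    have e1 : i - 1 + 2 = i + 1 := by omega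
    have e2 : i - 1 + 1 = i := by omega
    have e3 : i - 2 + 2 = i := by omega
    have e4 : i - 2 + 1 = i - 1 := by omega
    rw [e1, e2] at a1
    rw [e3, e4] at a2
    linear_combination a2 - a1
  refine ⟨fun i j hi hj hij => ⟨hdist' i j hi hj hij, hdist i j hi hj hij⟩, hnz, ?_, ?_, ?_⟩
  · intro i h1 hi
    rw [hF.f i h1 hi, hvt i hi, hphi1]
    have k := key hs h0 h1 hi
    have t1 := hth (i - 1) (by omega)
    have e1 : i - 1 + 1 = i := by omega
    rw [e1] at t1
    have t2 := hth d le_rfl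
    rw [hvd1, hvd] at t2
    linear_combination (-(θs i - θs 0)) * (t1 - t2) + B * k
  · intro i h1 hi
    rw [hF.p i h1 hi, hvt i hi, hvphi1]
    have k := key hs h0 h1 hi
    have t1 := hth (d - i + 1) (by omega)
    have t2 := hth 0 (by omega)
    have s1 : vt d θs (d - i + 1) = vt d θs i := by
      have := vt_symm d θs i (by omega)
      have e : d + 1 - i = d - i + 1 := by omega
      rw [e] at this; exact this
    have s2 : vt d θs (d - i + 1 + 1) = vt d θs (i - 1) := by
      have := vt_symm d θs (i - 1) (by omega)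
      have e : d + 1 - (i - 1) = d - i + 1 + 1 := by omega
      rw [e] at this; exact this
    rw [s1, s2] at t1
    rw [zero_add, hv1, hv0] at t2
    linear_combination (-(θs i - θs 0)) * (t1 - t2) + A * k
  · intro i j h1 hi h2 hj
    rw [ratio ht hdist' i h1 hi, ratio hs hdist j h2 hj]

/-- The three quadratic invariants. -/
theorem prod_formula {d : ℕ} {θs : ℕ → K} {β γ : K} (hs : Rec d β γ θs) (A B C : K) {i : ℕ}
    (h1 : 1 ≤ i) (hi : i ≤ d) :
    (A * θs i + B * θs (i - 1) + C) * (B * θs i + A * θs (i - 1) + C) =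
      (A ^ 2 + β * (A * B) + B ^ 2) * (θs i * θs (i - 1)) +
      (γ * (A * B) + C * (A + B)) * (θs i + θs (i - 1)) +
      ((θs 0 ^ 2 - β * (θs 0 * θs 1) + θs 1 ^ 2 - γ * (θs 0 + θs 1)) * (A * B) + C ^ 2) := by
  have h := aw hs (i - 1) (by omega)
  have e1 : i - 1 + 1 = i := by omega
  rw [e1] at h
  linear_combination (A * B) * h

end Pool.Agent.R859.PA
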